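import Mathlib
import Pool.Agent.H626R2.Loc.Defs

/-!
# C1d: the coefficients of `ren s σ` for `σ` of product type
-/

set_option autoImplicit false

namespace Pool.Agent.H626R2.Loc

open MvPolynomial

namespace C1d

variable {K : Type} [Field K] {n : ℕ}

/-- joint total degree at most `d` -/
def JD {r : ℕ} (d : ℕ) (G : MvPolynomial (Fin r) (MvPolynomial (Fin n) K)) : Prop :=
  ∀ α β, coeff β (coeff α G) ≠ 0 → β.degree + α.degree ≤ d

theorem JD.add {r d : ℕ} {G H : MvPolynomial (Fin r) (MvPolynomial (Fin n) K)} (hG : JD d G)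
    (hH : JD d H) : JD d (G + H) := by
  intro α β h
  rw [coeff_add, coeff_add] at h
  by_cases h1 : coeff β (coeff α G) = 0
  · rw [h1, zero_add] at h
    exact hH α β h
  · exact hG α β h1

theorem JD.zero {r d : ℕ} : JD d (0 : MvPolynomial (Fin r) (MvPolynomial (Fin n) K)) := by
  intro α β h
  exact absurd (by simp) h

theorem JD.mono {r d e : ℕ} {G : MvPolynomial (Fin r) (MvPolynomial (Fin n) K)} (hG : JD d G)
    (h : d ≤ e) : JD e G := fun α β h1 => (hG α β h1).trans h

theorem JD.sum {r d : ℕ} {ι : Type} (s : Finset ι)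
    (G : ι → MvPolynomial (Fin r) (MvPolynomial (Fin n) K)) (h : ∀ i ∈ s, JD d (G i)) :
    JD d (∑ i ∈ s, G i) := by
  classical
  induction s using Finset.induction_on with
  | empty => rw [Finset.sum_empty]; exact JD.zero
  | insert a s ha ih =>
    rw [Finset.sum_insert ha]
    exact (h a (Finset.mem_insert_self a s)).add
      (ih fun i hi => h i (Finset.mem_insert_of_mem hi))

theorem JD.mul {r d e : ℕ} {G H : MvPolynomial (Fin r) (MvPolynomial (Fin n) K)} (hG : JD d G)
    (hH : JD e H) : JD (d + e) (G * H) := by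
  intro α β h
  rw [coeff_mul, coeff_sum] at h
  obtain ⟨⟨a, b⟩, hab, h1⟩ := Finset.exists_ne_zero_of_sum_ne_zero h
  rw [coeff_mul] at h1
  obtain ⟨⟨c, f⟩, hcf, h2⟩ := Finset.exists_ne_zero_of_sum_ne_zero h1
  rw [Finset.HasAntidiagonal.mem_antidiagonal] at hab hcf
  have h3 := hG a c (left_ne_zero_of_mul h2)
  have h4 := hH b f (right_ne_zero_of_mul h2)
  simp only at hab hcf
  rw [← hab, ← hcf, map_add, map_add]
  omega

theorem JD.one {r : ℕ} : JD 0 (1 : MvPolynomial (Fin r) (MvPolynomial (Fin n) K)) := by
  classical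
  intro α β h
  rw [coeff_one] at h
  split_ifs at h with h1
  · rw [coeff_one] at h
    split_ifs at h with h2
    · rw [← h1, ← h2]; simp
    · exact absurd rfl h
  · exact absurd (by simp) h

theorem JD.pow {r d : ℕ} {G : MvPolynomial (Fin r) (MvPolynomial (Fin n) K)} (hG : JD d G)
    (k : ℕ) : JD (k * d) (G ^ k) := by
  induction k with
  | zero => rw [Nat.zero_mul, pow_zero]; exact JD.one
  | succ k ih =>
    rw [pow_succ, Nat.succ_mul]
    exact ih.mul hG

theorem JD.prod {r : ℕ} {ι : Type} (s : Finset ι) (d : ι → ℕ)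
    (G : ι → MvPolynomial (Fin r) (MvPolynomial (Fin n) K)) (h : ∀ i ∈ s, JD (d i) (G i)) :
    JD (∑ i ∈ s, d i) (∏ i ∈ s, G i) := by
  classical
  induction s using Finset.induction_on with
  | empty => rw [Finset.prod_empty, Finset.sum_empty]; exact JD.one
  | insert a s ha ih =>
    rw [Finset.prod_insert ha, Finset.sum_insert ha]
    exact (h a (Finset.mem_insert_self a s)).mul
      (ih fun i hi => h i (Finset.mem_insert_of_mem hi))

theorem JD.X {r : ℕ} (b : Fin r) :
    JD 1 (MvPolynomial.X b : MvPolynomial (Fin r) (MvPolynomial (Fin n) K)) := by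
  classical
  intro α β h
  rw [coeff_X] at h
  split_ifs at h with h1
  · rw [coeff_one] at h
    split_ifs at h with h2
    · rw [← h1, ← h2]; simp
    · exact absurd rfl h
  · exact absurd (by simp) h

theorem JD.C {r d : ℕ} (p : MvPolynomial (Fin n) K) (hp : ∀ β, coeff β p ≠ 0 → β.degree ≤ d) :
    JD d (MvPolynomial.C p : MvPolynomial (Fin r) (MvPolynomial (Fin n) K)) := by
  classical
  intro α β h
  rw [coeff_C] at h
  split_ifs at h with h1
  · rw [← h1, map_zero, add_zero]; exact hp β h
  · exact absurd (by simp) h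

theorem ren_X_alive {r : ℕ} (s : Fin r → Fin n) (hs : Function.Injective s) (b : Fin r) :
    ren (K := K) s (X (s b)) = X b := by
  unfold ren
  rw [aeval_X]
  have h : ∃ b', s b' = s b := ⟨b, rfl⟩
  rw [dif_pos h]
  congr 1
  exact hs h.choose_spec

theorem ren_X_dead {r : ℕ} (s : Fin r → Fin n) (m : Fin n) (hm : ¬ ∃ b, s b = m) :
    ren (K := K) s (X m) = C (X m) := by
  unfold ren
  rw [aeval_X, dif_neg hm]

theorem JD_ren_X {r : ℕ} (s : Fin r → Fin n) (hs : Function.Injective s) (m : Fin n) :
    JD 1 (ren (K := K) s (X m)) := by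
  classical
  by_cases hm : ∃ b, s b = m
  · obtain ⟨b, rfl⟩ := hm
    rw [ren_X_alive s hs]
    exact JD.X b
  · rw [ren_X_dead s m hm]
    apply JD.C
    intro β h
    rw [coeff_X] at h
    split_ifs at h with h1
    · rw [← h1]; simp
    · exact absurd rfl h

theorem JD_ren {r : ℕ} (s : Fin r → Fin n) (hs : Function.Injective s) (q : MvPolynomial (Fin n) K) :
    JD q.totalDegree (ren s q) := by
  have h1 : ren s q = ∑ m ∈ q.support, ren s (monomial m (coeff m q)) := by
    rw [← map_sum, ← q.as_sum]
  rw [h1]
  apply JD.sum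
  intro m hm
  have h2 : ren s (monomial m (coeff m q)) = C (C (coeff m q)) * ∏ i ∈ m.support, ren s (X i) ^ m i := by
    rw [monomial_eq, map_mul, Finsupp.prod, map_prod]
    congr 1
    · rw [← algebraMap_eq, AlgHom.commutes]
      rfl
    · apply Finset.prod_congr rfl
      intro i _
      rw [map_pow]
  rw [h2]
  have h3 : JD (0 + ∑ i ∈ m.support, m i * 1)
      (C (C (coeff m q)) * ∏ i ∈ m.support, ren s (X i) ^ m i) := by
    apply JD.mul
    · apply JD.C
      intro β h
      classical
      rw [coeff_C] at h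
      split_ifs at h with h1
      · rw [← h1]; simp
      · exact absurd rfl h
    · apply JD.prod
      intro i _
      exact (JD_ren_X s hs i).pow (m i)
  refine h3.mono ?_
  simp only [zero_add, mul_one]
  exact le_totalDegree hm

/-- the exponent of an element of `Sym (Option (Fin r)) δ` -/
noncomputable def ex {r δ : ℕ} (x : Sym (Option (Fin r)) δ) : Fin r →₀ ℕ :=
  Finsupp.equivFunOnFinite.symm fun b => Multiset.count (some b) (x : Multiset (Option (Fin r)))

theorem ex_surj {r δ : ℕ} (α : Fin r →₀ ℕ) (h : α.degree ≤ δ) :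
    ∃ x : Sym (Option (Fin r)) δ, ex x = α := by
  refine ⟨⟨(∑ b, α b • ({some b} : Multiset (Option (Fin r)))) +
    (δ - α.degree) • ({none} : Multiset (Option (Fin r))), ?_⟩, ?_⟩
  · rw [Multiset.card_add, Multiset.card_sum]
    simp only [Multiset.card_nsmul, Multiset.card_singleton, mul_one]
    rw [Finsupp.degree_eq_sum] at *
    omega
  · ext b
    unfold ex
    simp only [Finsupp.equivFunOnFinite_symm_apply_apply]
    change Multiset.count (some b) ((∑ b, α b • ({some b} : Multiset (Option (Fin r)))) +
      (δ - α.degree) • ({none} : Multiset (Option (Fin r)))) = α b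
    rw [Multiset.count_add, Multiset.count_sum']
    simp [Multiset.count_singleton]

theorem exists_index (r δ : ℕ) : ∃ f : Fin ((r + δ).choose r) → (Fin r →₀ ℕ),
    ∀ α : Fin r →₀ ℕ, α.degree ≤ δ → ∃ i, f i = α := by
  have hcard : Fintype.card (Sym (Option (Fin r)) δ) = (r + δ).choose r := by
    rw [Sym.card_sym_eq_choose, Fintype.card_option, Fintype.card_fin,
      show r + 1 + δ - 1 = r + δ by omega]
    exact (Nat.choose_symm_add).symm
  let e : Fin ((r + δ).choose r) ≃ Sym (Option (Fin r)) δ := (Fintype.equivFinOfCardEq hcard).symm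
  refine ⟨fun i => ex (e i), fun α hα => ?_⟩
  obtain ⟨x, hx⟩ := ex_surj α hα
  exact ⟨e.symm x, by simp [hx]⟩

end C1d

open C1d

variable {K : Type} [Field K] {n : ℕ}

/-- C1d. -/
theorem coeff_ren_prod {r : ℕ} (s : Fin r → Fin n) (hs : Function.Injective s) {δ : ℕ}
    {σ : MvPolynomial (Fin n) K} (hσ : ProdType δ σ) :
    ∃ F : Fin ((r + δ).choose r) → MvPolynomial (Fin n) K, (∀ i, ProdType δ (F i)) ∧
      ∀ m, (ren s σ).coeff m ∈ Algebra.adjoin K (Set.range F) := by
  classical
  obtain ⟨u, q, hq, rfl⟩ := hσ
  obtain ⟨f, hf⟩ := exists_index r δ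
  set I : Finset (Fin n) := Finset.univ.image s with hI
  set U : MvPolynomial (Fin n) K := ∏ m ∈ Iᶜ, Polynomial.aeval (X m) (u m) with hU
  have hJ := JD_ren s hs q
  refine ⟨fun i => U * coeff (f i) (ren s q), ?_, ?_⟩
  · intro i
    refine ⟨fun m => if m ∈ I then 1 else u m, coeff (f i) (ren s q), ?_, ?_⟩
    · unfold totalDegree
      apply Finset.sup_le
      intro β hβ
      have h1 := hJ (f i) β (mem_support_iff.mp hβ)
      have h2 : β.sum (fun _ e => e) = β.degree := rfl
      omega
    · change U * coeff (f i) (ren s q) = _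
      congr 1
      rw [← Finset.prod_mul_prod_compl I
        (fun m => Polynomial.aeval (X m : MvPolynomial (Fin n) K) (if m ∈ I then 1 else u m))]
      have h1 : ∏ m ∈ I, Polynomial.aeval (X m : MvPolynomial (Fin n) K) (if m ∈ I then 1 else u m)
          = 1 := by
        apply Finset.prod_eq_one
        intro m hm
        rw [if_pos hm, map_one]
      rw [h1, one_mul, hU]
      apply Finset.prod_congr rfl
      intro m hm
      rw [if_neg (Finset.mem_compl.mp hm)]
  · intro m
    -- the product of the univariate polynomials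
    have h1 : ren s (∏ m, Polynomial.aeval (X m : MvPolynomial (Fin n) K) (u m))
        = MvPolynomial.map (C : K →+* MvPolynomial (Fin n) K)
            (∏ b, Polynomial.aeval (X b : MvPolynomial (Fin r) K) (u (s b))) * C U := by
      rw [← Finset.prod_mul_prod_compl I, map_mul]
      congr 1
      · rw [hI, Finset.prod_image (fun a _ b _ h => hs h), map_prod, map_prod]
        apply Finset.prod_congr rfl
        intro b _
        rw [← Polynomial.aeval_algHom_apply, ren_X_alive s hs]
        have h2 : (MvPolynomial.map (C : K →+* MvPolynomial (Fin n) K)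
            (Polynomial.aeval (X b : MvPolynomial (Fin r) K) (u (s b))))
            = MvPolynomial.mapAlgHom (Algebra.ofId K (MvPolynomial (Fin n) K))
              (Polynomial.aeval (X b : MvPolynomial (Fin r) K) (u (s b))) := rfl
        rw [h2, ← Polynomial.aeval_algHom_apply]
        congr 1
        simp [MvPolynomial.mapAlgHom_apply]
      · rw [hU, map_prod, map_prod]
        apply Finset.prod_congr rfl
        intro i hi
        rw [← Polynomial.aeval_algHom_apply, ren_X_dead s i]
        · have h2 : (C (Polynomial.aeval (X i : MvPolynomial (Fin n) K) (u i)) :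
              MvPolynomial (Fin r) (MvPolynomial (Fin n) K))
              = IsScalarTower.toAlgHom K (MvPolynomial (Fin n) K)
                (MvPolynomial (Fin r) (MvPolynomial (Fin n) K))
                (Polynomial.aeval (X i : MvPolynomial (Fin n) K) (u i)) := rfl
          rw [h2, ← Polynomial.aeval_algHom_apply]
          rfl
        · rintro ⟨b, hb⟩
          apply Finset.mem_compl.mp hi
          rw [hI, ← hb]
          exact Finset.mem_image_of_mem s (Finset.mem_univ b)
    rw [map_mul, h1, mul_assoc, coeff_mul]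
    apply Subalgebra.sum_mem
    rintro ⟨a, b⟩ _
    apply Subalgebra.mul_mem
    · rw [coeff_map]
      exact Subalgebra.algebraMap_mem _ _
    · rw [coeff_C_mul]
      by_cases hb : coeff b (ren s q) = 0
      · rw [hb, mul_zero]; exact Subalgebra.zero_mem _
      · obtain ⟨β, hβ⟩ := ne_zero_iff.mp hb
        have h2 := hJ b β hβ
        obtain ⟨i, hi⟩ := hf b (by omega)
        apply Algebra.subset_adjoin
        exact ⟨i, by simp only [hi]⟩

end Pool.Agent.H626R2.Loc
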