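import Mathlib

set_option autoImplicit false
set_option linter.unusedSectionVars false

/-!
Colour-class recursion for the chromatic polynomial of a finite graph, positivity, and the
monotonicity of the ratio `P_W (μ+1) / P_W μ` under adding vertices.
-/

namespace Pool.Agent.H862R2.Chrom

open Finset Polynomial

universe u

variable {V : Type u} [DecidableEq V] (G : SimpleGraph V)

/-- independence of a finite set of vertices -/
def Indep (T : Finset V) : Prop := ∀ a ∈ T, ∀ b ∈ T, ¬ G.Adj a b

open Classical in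
/-- independent subsets of `W` -/
noncomputable def I (W : Finset V) : Finset (Finset V) := W.powerset.filter (fun T => Indep G T)

theorem mem_I {W T : Finset V} : T ∈ I G W ↔ T ⊆ W ∧ Indep G T := by
  simp [I]

theorem empty_mem_I (W : Finset V) : (∅ : Finset V) ∈ I G W := by
  simp [mem_I, Indep]

/-- number of proper colourings of `G[W]` with `k` colours, colour class by colour class -/
noncomputable def cnt : ℕ → Finset V → ℕ
  | 0, W => if W = ∅ then 1 else 0
  | k + 1, W => ∑ T ∈ I G W, cnt k (W \ T)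

theorem sum_swap {M : Type} [AddCommMonoid M] (W : Finset V) (i : V) (f : Finset V → M) :
    ∑ T ∈ (I G W).filter (fun T => i ∉ T), ∑ S ∈ (I G (W \ T)).filter (fun S => i ∈ S),
        f ((W \ T) \ S)
      = ∑ S ∈ (I G W).filter (fun S => i ∈ S), ∑ T ∈ I G (W \ S), f ((W \ S) \ T) := by
  rw [Finset.sum_comm' (t' := (I G W).filter (fun S => i ∈ S)) (s' := fun S => I G (W \ S))]
  · refine Finset.sum_congr rfl fun S hS => Finset.sum_congr rfl fun T hT => ?_
    rw [sdiff_right_comm]
  · intro T S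
    simp only [Finset.mem_filter, mem_I]
    constructor
    · rintro ⟨⟨⟨hTW, hT⟩, hiT⟩, ⟨hSW, hS⟩, hiS⟩
      refine ⟨⟨?_, hT⟩, ⟨?_, hS⟩, hiS⟩
      · intro a ha
        rw [Finset.mem_sdiff]
        refine ⟨hTW ha, fun haS => ?_⟩
        exact (Finset.mem_sdiff.1 (hSW haS)).2 ha
      · exact fun a ha => (Finset.mem_sdiff.1 (hSW ha)).1
    · rintro ⟨⟨hTW, hT⟩, ⟨hSW, hS⟩, hiS⟩
      refine ⟨⟨⟨fun a ha => (Finset.mem_sdiff.1 (hTW ha)).1, hT⟩, ?_⟩, ⟨?_, hS⟩, hiS⟩
      · intro hiT
        exact (Finset.mem_sdiff.1 (hTW hiT)).2 hiS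
      · intro a ha
        rw [Finset.mem_sdiff]
        refine ⟨hSW ha, fun haT => ?_⟩
        exact (Finset.mem_sdiff.1 (hTW haT)).2 ha

theorem cnt_succ (k : ℕ) (W : Finset V) : cnt G (k + 1) W = ∑ T ∈ I G W, cnt G k (W \ T) := rfl

theorem cnt_succ_mem (k : ℕ) : ∀ (W : Finset V) (i : V), i ∈ W →
    cnt G (k + 1) W = (k + 1) * ∑ T ∈ (I G W).filter (fun T => i ∈ T), cnt G k (W \ T) := by
  induction k with
  | zero =>
    intro W i hi
    rw [cnt_succ, ← Finset.sum_filter_add_sum_filter_not (I G W) (fun T => i ∈ T)]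
    have : ∑ T ∈ (I G W).filter (fun T => ¬ i ∈ T), cnt G 0 (W \ T) = 0 := by
      refine Finset.sum_eq_zero fun T hT => ?_
      simp only [Finset.mem_filter] at hT
      have : W \ T ≠ ∅ := by
        intro h
        have : i ∈ W \ T := Finset.mem_sdiff.2 ⟨hi, hT.2⟩
        rw [h] at this
        simp at this
      simp [cnt, this]
    rw [this]; ring
  | succ k ih =>
    intro W i hi
    rw [cnt_succ, ← Finset.sum_filter_add_sum_filter_not (I G W) (fun T => i ∈ T)]
    have h2 : ∑ T ∈ (I G W).filter (fun T => ¬ i ∈ T), cnt G (k + 1) (W \ T)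
        = (k + 1) * ∑ T ∈ (I G W).filter (fun T => i ∈ T), cnt G (k + 1) (W \ T) := by
      have h3 : ∀ T ∈ (I G W).filter (fun T => ¬ i ∈ T), cnt G (k + 1) (W \ T)
          = (k + 1) * ∑ S ∈ (I G (W \ T)).filter (fun S => i ∈ S), cnt G k ((W \ T) \ S) := by
        intro T hT
        exact ih _ i (Finset.mem_sdiff.2 ⟨hi, (Finset.mem_filter.1 hT).2⟩)
      rw [Finset.sum_congr rfl h3, ← Finset.mul_sum]
      rw [sum_swap G W i (cnt G k)]
      rfl
    rw [h2]; ring

theorem cnt_zero_of_mem {W : Finset V} {i : V} (hi : i ∈ W) : cnt G 0 W = 0 := by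
  have : W ≠ ∅ := by rintro rfl; simp at hi
  simp [cnt, this]

theorem cnt_empty (k : ℕ) : cnt G k ∅ = 1 := by
  induction k with
  | zero => simp [cnt]
  | succ k ih =>
    rw [cnt_succ]
    have : I G (∅ : Finset V) = {∅} := by
      ext T; simp only [mem_I, Finset.mem_singleton, Finset.subset_empty]
      constructor
      · exact fun h => h.1
      · rintro rfl; exact ⟨rfl, by simp [Indep]⟩
    rw [this]; simp [ih]

theorem exists_poly : ∀ (n : ℕ) (W : Finset V), W.card = n →
    ∃ P : Polynomial ℝ, ∀ k : ℕ, P.eval (k : ℝ) = (cnt G k W : ℝ) := by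
  intro n
  induction n using Nat.strong_induction_on with
  | _ n ih =>
    intro W hW
    rcases W.eq_empty_or_nonempty with rfl | ⟨i, hi⟩
    · exact ⟨1, fun k => by simp [cnt_empty]⟩
    · have hlt : ∀ T ∈ (I G W).filter (fun T => i ∈ T), (W \ T).card < n := by
        intro T hT
        rw [← hW]
        refine Finset.card_lt_card ?_
        rw [Finset.ssubset_iff_subset_ne]
        refine ⟨Finset.sdiff_subset, fun h => ?_⟩
        have h1 : i ∈ W \ T := by rw [h]; exact hi
        exact (Finset.mem_sdiff.1 h1).2 (Finset.mem_filter.1 hT).2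
      have hex : ∀ T : Finset V, ∃ P : Polynomial ℝ, T ∈ (I G W).filter (fun T => i ∈ T) →
          ∀ k : ℕ, P.eval (k : ℝ) = (cnt G k (W \ T) : ℝ) := by
        intro T
        by_cases hT : T ∈ (I G W).filter (fun T => i ∈ T)
        · obtain ⟨P, hP⟩ := ih _ (hlt T hT) _ rfl
          exact ⟨P, fun _ => hP⟩
        · exact ⟨0, fun h => absurd h hT⟩
      choose Q hQ using hex
      refine ⟨X * ∑ T ∈ (I G W).filter (fun T => i ∈ T), (Q T).comp (X - 1), fun k => ?_⟩
      rw [eval_mul, eval_X, eval_finsetSum]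
      cases k with
      | zero => rw [cnt_zero_of_mem G hi]; simp
      | succ k =>
        rw [cnt_succ_mem G k W i hi]
        push_cast
        congr 1
        refine Finset.sum_congr rfl fun T hT => ?_
        rw [eval_comp, ← hQ T hT k]
        simp

/-- the chromatic polynomial of `G[W]` -/
noncomputable def P (W : Finset V) : Polynomial ℝ := (exists_poly G W.card W rfl).choose

theorem P_nat (W : Finset V) (k : ℕ) : (P G W).eval (k : ℝ) = (cnt G k W : ℝ) :=
  (exists_poly G W.card W rfl).choose_spec k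

theorem poly_ext {p q : Polynomial ℝ} (h : ∀ k : ℕ, p.eval (k : ℝ) = q.eval (k : ℝ)) : p = q := by
  refine Polynomial.eq_of_infinite_eval_eq p q ?_
  refine Set.infinite_of_injective_forall_mem (f := fun k : ℕ => (k : ℝ)) Nat.cast_injective ?_
  intro k
  exact h k

theorem P_empty : P G ∅ = 1 := poly_ext fun k => by rw [P_nat, cnt_empty]; simp

/-- (I2) -/
theorem P_add_one (W : Finset V) (x : ℝ) :
    (P G W).eval (x + 1) = ∑ T ∈ I G W, (P G (W \ T)).eval x := by
  have : (P G W).comp (X + 1) = ∑ T ∈ I G W, P G (W \ T) := by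
    refine poly_ext fun k => ?_
    rw [eval_comp, eval_finsetSum]
    have h1 : (X + 1 : Polynomial ℝ).eval (k : ℝ) = ((k + 1 : ℕ) : ℝ) := by simp
    rw [h1, P_nat, cnt_succ]
    push_cast
    refine Finset.sum_congr rfl fun T _ => ?_
    rw [P_nat]
  have h2 := congrArg (fun q => Polynomial.eval x q) this
  simp only [eval_comp, eval_finsetSum] at h2
  simpa using h2

/-- (I1) -/
theorem P_mem (W : Finset V) (i : V) (hi : i ∈ W) (x : ℝ) :
    (P G W).eval (x + 1)
      = (x + 1) * ∑ T ∈ (I G W).filter (fun T => i ∈ T), (P G (W \ T)).eval x := by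
  have : (P G W).comp (X + 1)
      = (X + 1) * ∑ T ∈ (I G W).filter (fun T => i ∈ T), P G (W \ T) := by
    refine poly_ext fun k => ?_
    rw [eval_comp, eval_mul, eval_finsetSum]
    have h1 : (X + 1 : Polynomial ℝ).eval (k : ℝ) = ((k + 1 : ℕ) : ℝ) := by simp
    rw [h1, P_nat, cnt_succ_mem G k W i hi]
    push_cast
    congr 1
    refine Finset.sum_congr rfl fun T _ => ?_
    rw [P_nat]
  have h2 := congrArg (fun q => Polynomial.eval x q) this
  simp only [eval_comp, eval_finsetSum, eval_mul] at h2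
  simpa using h2

theorem card_sdiff_lt {W T : Finset V} {i : V} (hi : i ∈ W) (hiT : i ∈ T) :
    (W \ T).card < W.card := by
  refine Finset.card_lt_card ?_
  rw [Finset.ssubset_iff_subset_ne]
  refine ⟨Finset.sdiff_subset, fun h => ?_⟩
  have h1 : i ∈ W \ T := by rw [h]; exact hi
  exact (Finset.mem_sdiff.1 h1).2 hiT

theorem P_pos : ∀ (n : ℕ) (W : Finset V), W.card = n → ∀ x : ℝ, (n : ℝ) - 1 < x →
    0 < (P G W).eval x := by
  intro n
  induction n using Nat.strong_induction_on with
  | _ n ih =>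
    intro W hW x hx
    rcases W.eq_empty_or_nonempty with rfl | ⟨i, hi⟩
    · rw [P_empty]; simp
    · have hx1 : x = (x - 1) + 1 := by ring
      have hn : 1 ≤ n := by rw [← hW]; exact Finset.card_pos.2 ⟨i, hi⟩
      have hn' : (1 : ℝ) ≤ n := by exact_mod_cast hn
      rw [hx1, P_mem G W i hi]
      refine mul_pos (by linarith) (Finset.sum_pos ?_ ?_)
      · intro T hT
        have hc := card_sdiff_lt hi (Finset.mem_filter.1 hT).2
        rw [hW] at hc
        refine ih _ hc _ rfl _ ?_
        have : ((W \ T).card : ℝ) ≤ (n : ℝ) - 1 := by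
          have : (W \ T).card + 1 ≤ n := hc
          have h' : (((W \ T).card + 1 : ℕ) : ℝ) ≤ n := by exact_mod_cast this
          push_cast at h'; linarith
        linarith
      · refine ⟨{i}, Finset.mem_filter.2 ⟨(mem_I G).2 ⟨by simpa using hi, ?_⟩, by simp⟩⟩
        intro a ha b hb
        simp only [Finset.mem_singleton] at ha hb
        subst ha; subst hb
        exact G.loopless.irrefl _

theorem P_pos' (W : Finset V) (x : ℝ) (hx : (W.card : ℝ) - 1 < x) : 0 < (P G W).eval x :=
  P_pos G _ W rfl x hx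

/-- the ratio `P_W (μ+1) / P_W μ` -/
noncomputable def Y (W : Finset V) (μ : ℝ) : ℝ := (P G W).eval (μ + 1) / (P G W).eval μ

open scoped Classical in
theorem insert_mem_I {H : Finset V} {v : V} (hv : v ∉ H) (T' : Finset V) :
    (T' ∈ (I G (insert v H)).filter (fun T => v ∈ T)) ↔
      ∃ T ∈ (I G H).filter (fun T => ∀ a ∈ T, ¬ G.Adj v a), insert v T = T' := by
  simp only [Finset.mem_filter, mem_I]
  constructor
  · rintro ⟨⟨hsub, hind⟩, hvT⟩
    refine ⟨T'.erase v, ⟨⟨?_, ?_⟩, ?_⟩, Finset.insert_erase hvT⟩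
    · intro a ha
      have h1 := hsub (Finset.mem_of_mem_erase ha)
      rcases Finset.mem_insert.1 h1 with h | h
      · exact absurd h (Finset.ne_of_mem_erase ha)
      · exact h
    · intro a ha b hb
      exact hind a (Finset.mem_of_mem_erase ha) b (Finset.mem_of_mem_erase hb)
    · intro a ha
      exact hind v hvT a (Finset.mem_of_mem_erase ha)
  · rintro ⟨T, ⟨⟨hsub, hind⟩, hN⟩, rfl⟩
    refine ⟨⟨Finset.insert_subset_insert v hsub, ?_⟩, Finset.mem_insert_self _ _⟩
    intro a ha b hb
    rcases Finset.mem_insert.1 ha with rfl | ha' <;> rcases Finset.mem_insert.1 hb with rfl | hb'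
    · exact G.loopless.irrefl _
    · exact hN b hb'
    · intro h; exact hN a ha' h.symm
    · exact hind a ha' b hb'

open scoped Classical in
/-- adding a vertex `v` to `H` -/
theorem P_insert (H : Finset V) (v : V) (hv : v ∉ H) (x : ℝ) :
    (P G (insert v H)).eval (x + 1)
      = (x + 1) * ∑ T ∈ (I G H).filter (fun T => ∀ a ∈ T, ¬ G.Adj v a),
          (P G (H \ T)).eval x := by
  rw [P_mem G (insert v H) v (Finset.mem_insert_self _ _)]
  congr 1
  symm
  refine Finset.sum_bij (fun T _ => insert v T) ?_ ?_ ?_ ?_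
  · intro T hT
    exact (insert_mem_I G hv _).2 ⟨T, hT, rfl⟩
  · intro T hT S hS h
    have hvT : v ∉ T := fun h' => hv (((mem_I G).1 (Finset.mem_filter.1 hT).1).1 h')
    have hvS : v ∉ S := fun h' => hv (((mem_I G).1 (Finset.mem_filter.1 hS).1).1 h')
    have := congrArg (fun U => Finset.erase U v) h
    simpa [Finset.erase_insert hvT, Finset.erase_insert hvS] using this
  · intro T' hT'
    obtain ⟨T, hT, h⟩ := (insert_mem_I G hv _).1 hT'
    exact ⟨T, hT, h⟩
  · intro T hT
    congr 2
    ext a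
    simp only [Finset.mem_sdiff, Finset.mem_insert, not_or]
    constructor
    · rintro ⟨h1, h2⟩
      exact ⟨Or.inr h1, fun h => hv (h ▸ h1), h2⟩
    · rintro ⟨h1, h2, h3⟩
      exact ⟨h1.resolve_left h2, h3⟩

/-- The key step: if `Y · (μ-1)` is maximal at `H` among its subsets, then adding a vertex
does not decrease `Y · μ`. -/
theorem key (H : Finset V) (v : V) (hv : v ∉ H) (μ : ℝ) (hμ : (H.card : ℝ) < μ)
    (ih : ∀ U ⊆ H, Y G U (μ - 1) ≤ Y G H (μ - 1)) :
    Y G H μ ≤ Y G (insert v H) μ := by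
  classical
  have hm0 : (0 : ℝ) ≤ H.card := Nat.cast_nonneg _
  have hμ0 : 0 < μ := lt_of_le_of_lt hm0 hμ
  set a : Finset V → ℝ := fun T => (P G (H \ T)).eval (μ - 1) with ha
  set b : Finset V → ℝ := fun T => (P G (H \ T)).eval μ with hb
  have hcard : ∀ T : Finset V, ((H \ T).card : ℝ) ≤ H.card := fun T => by
    exact_mod_cast Finset.card_le_card Finset.sdiff_subset
  have hapos : ∀ T, 0 < a T := fun T => P_pos' G _ _ (by have := hcard T; linarith)
  have hbpos : ∀ T, 0 < b T := fun T => P_pos' G _ _ (by have := hcard T; linarith)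
  set y0 : ℝ := Y G H (μ - 1) with hy0
  have hμ1 : μ - 1 + 1 = μ := by ring
  -- w T ≥ 0
  set w : Finset V → ℝ := fun T => y0 * a T - b T with hw
  have hw0 : ∀ T, 0 ≤ w T := by
    intro T
    have h1 := ih (H \ T) Finset.sdiff_subset
    have h2 : Y G (H \ T) (μ - 1) = b T / a T := by
      simp only [Y, ha, hb, hμ1]
    rw [h2, div_le_iff₀ (hapos T)] at h1
    simp only [hw]
    linarith
  have hwe : w ∅ = 0 := by
    have h2 : y0 = b ∅ / a ∅ := by
      simp only [hy0, Y, ha, hb, hμ1, Finset.sdiff_empty]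
    simp only [hw]
    rw [h2, div_mul_cancel₀ _ (hapos ∅).ne']
    ring
  set Z : ℝ := (P G H).eval μ with hZ
  set Z' : ℝ := (P G H).eval (μ + 1) with hZ'
  have hZpos : 0 < Z := P_pos' G _ _ (by linarith)
  have hZ'pos : 0 < Z' := P_pos' G _ _ (by linarith)
  have hZsum : Z = ∑ T ∈ I G H, a T := by
    have := P_add_one G H (μ - 1)
    rw [hμ1] at this
    exact this
  have hZ'sum : Z' = ∑ T ∈ I G H, b T := P_add_one G H μ
  have hai : ∀ i ∈ H, ∑ T ∈ (I G H).filter (fun T => i ∈ T), a T = Z / μ := by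
    intro i hi
    have := P_mem G H i hi (μ - 1)
    rw [hμ1] at this
    rw [hZ, this]
    field_simp
    rfl
  have hbi : ∀ i ∈ H, ∑ T ∈ (I G H).filter (fun T => i ∈ T), b T = Z' / (μ + 1) := by
    intro i hi
    have := P_mem G H i hi μ
    rw [hZ', this]
    have : μ + 1 ≠ 0 := by linarith
    field_simp
    rfl
  set ℓ : ℝ := y0 * (Z / μ) - Z' / (μ + 1) with hℓ
  have hwi : ∀ i ∈ H, ∑ T ∈ (I G H).filter (fun T => i ∈ T), w T = ℓ := by
    intro i hi
    simp only [hw, Finset.sum_sub_distrib, ← Finset.mul_sum]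
    rw [hai i hi, hbi i hi]
  have hsumw : 0 ≤ y0 * Z - Z' := by
    have : y0 * Z - Z' = ∑ T ∈ I G H, w T := by
      simp only [hw, Finset.sum_sub_distrib, ← Finset.mul_sum]
      rw [hZsum, hZ'sum]
    rw [this]
    exact Finset.sum_nonneg fun T _ => hw0 T
  have hℓ0 : 0 ≤ ℓ := by
    have h1 : Z' / (μ + 1) ≤ Z' / μ :=
      div_le_div_of_nonneg_left hZ'pos.le hμ0 (by linarith)
    have h2 : Z' / μ ≤ y0 * (Z / μ) := by
      rw [← mul_div_assoc]
      exact div_le_div_of_nonneg_right (by linarith) hμ0.le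
    simp only [hℓ]; linarith
  -- the neighbours of v in H and the rest
  set N : Finset V := H.filter (fun i => G.Adj v i) with hN
  set M : Finset V := H.filter (fun i => ¬ G.Adj v i) with hM
  have hNM : (N.card : ℝ) + M.card = H.card := by
    have := Finset.card_filter_add_card_filter_not (s := H) (fun i => G.Adj v i)
    exact_mod_cast this
  set A : Finset (Finset V) := (I G H).filter (fun T => ∀ i ∈ T, ¬ G.Adj v i) with hA
  -- upper bound for the sum of w over A
  have hwA : ∑ T ∈ A, w T ≤ M.card * ℓ := by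
    have h1 : ∑ T ∈ A, w T ≤ ∑ T ∈ I G H, ∑ i ∈ M, if i ∈ T then w T else 0 := by
      rw [hA, Finset.sum_filter]
      refine Finset.sum_le_sum fun T hT => ?_
      have hnn : 0 ≤ ∑ i ∈ M, if i ∈ T then w T else 0 := by
        refine Finset.sum_nonneg fun i _ => ?_
        split_ifs
        · exact hw0 T
        · exact le_rfl
      split_ifs with hTA
      · rcases T.eq_empty_or_nonempty with rfl | ⟨i, hi⟩
        · rw [hwe]; exact hnn
        · have hiM : i ∈ M := by
            rw [hM, Finset.mem_filter]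
            exact ⟨((mem_I G).1 hT).1 hi, hTA i hi⟩
          calc w T = if i ∈ T then w T else 0 := by rw [if_pos hi]
            _ ≤ ∑ i ∈ M, if i ∈ T then w T else 0 := by
              refine Finset.single_le_sum (f := fun i => if i ∈ T then w T else 0) ?_ hiM
              intro j _
              split_ifs
              · exact hw0 T
              · exact le_rfl
      · exact hnn
    refine h1.trans ?_
    rw [Finset.sum_comm]
    have h2 : ∀ i ∈ M, ∑ T ∈ I G H, (if i ∈ T then w T else 0) = ℓ := by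
      intro i hi
      rw [← Finset.sum_filter]
      exact hwi i (Finset.mem_filter.1 hi).1
    rw [Finset.sum_congr rfl h2]
    simp
  -- lower bound for the sum of a over A
  have haA : Z * (μ - N.card) / μ ≤ ∑ T ∈ A, a T := by
    have h1 : Z ≤ ∑ T ∈ A, a T + ∑ T ∈ I G H, ∑ i ∈ N, if i ∈ T then a T else 0 := by
      rw [hZsum, hA, Finset.sum_filter, ← Finset.sum_add_distrib]
      refine Finset.sum_le_sum fun T hT => ?_
      have hnn : 0 ≤ ∑ i ∈ N, if i ∈ T then a T else 0 := by
        refine Finset.sum_nonneg fun i _ => ?_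
        split_ifs
        · exact (hapos T).le
        · exact le_rfl
      split_ifs with hTA
      · linarith
      · push Not at hTA
        obtain ⟨i, hi, hvi⟩ := hTA
        have hiN : i ∈ N := by
          rw [hN, Finset.mem_filter]
          exact ⟨((mem_I G).1 hT).1 hi, hvi⟩
        have : a T ≤ ∑ i ∈ N, if i ∈ T then a T else 0 := by
          calc a T = if i ∈ T then a T else 0 := by rw [if_pos hi]
            _ ≤ ∑ i ∈ N, if i ∈ T then a T else 0 := by
              refine Finset.single_le_sum (f := fun i => if i ∈ T then a T else 0) ?_ hiN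
              intro j _
              split_ifs
              · exact (hapos T).le
              · exact le_rfl
        linarith
    rw [Finset.sum_comm] at h1
    have h2 : ∀ i ∈ N, ∑ T ∈ I G H, (if i ∈ T then a T else 0) = Z / μ := by
      intro i hi
      rw [← Finset.sum_filter]
      exact hai i (Finset.mem_filter.1 hi).1
    rw [Finset.sum_congr rfl h2] at h1
    simp only [Finset.sum_const, nsmul_eq_mul] at h1
    have : Z * (μ - N.card) / μ = Z - N.card * (Z / μ) := by
      field_simp
    rw [this]; linarith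
  -- evaluate P (insert v H)
  have hW1 : (P G (insert v H)).eval μ = μ * ∑ T ∈ A, a T := by
    have := P_insert G H v hv (μ - 1)
    rw [hμ1] at this
    exact this
  have hW2 : (P G (insert v H)).eval (μ + 1) = (μ + 1) * ∑ T ∈ A, b T := P_insert G H v hv μ
  have hbA : ∑ T ∈ A, b T = y0 * ∑ T ∈ A, a T - ∑ T ∈ A, w T := by
    simp only [hw, Finset.sum_sub_distrib, ← Finset.mul_sum]
    ring
  set aA : ℝ := ∑ T ∈ A, a T with haAdef
  have haApos : 0 < aA := by
    have : 0 < Z * (μ - N.card) / μ := by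
      have hM0 : (0 : ℝ) ≤ M.card := Nat.cast_nonneg _
      have : (0 : ℝ) < μ - N.card := by linarith
      positivity
    linarith
  have hYH : Y G H μ = Z' / Z := rfl
  have hYW : Y G (insert v H) μ = ((μ + 1) * ∑ T ∈ A, b T) / (μ * aA) := by
    simp only [Y]; rw [hW1, hW2]
  rw [hYH, hYW, div_le_div_iff₀ hZpos (by positivity)]
  rw [hbA]
  -- Z' * (μ aA) ≤ (μ+1)(y0 aA - wA) Z
  have e1 : μ * (μ + 1) * ℓ = (μ + 1) * y0 * Z - μ * Z' := by
    simp only [hℓ]
    have : μ + 1 ≠ 0 := by linarith
    field_simp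
  have hM0 : (0 : ℝ) ≤ M.card := Nat.cast_nonneg _
  have e2 : Z * (μ - N.card) ≤ μ * aA := by
    have := haA
    rw [div_le_iff₀ hμ0] at this
    linarith
  have e3 : (M.card : ℝ) * Z ≤ μ * aA := by
    refine le_trans ?_ e2
    rw [mul_comm]
    refine mul_le_mul_of_nonneg_left ?_ hZpos.le
    linarith
  have e4 : (∑ T ∈ A, w T) * Z ≤ ℓ * (μ * aA) := by
    calc (∑ T ∈ A, w T) * Z ≤ (M.card * ℓ) * Z := mul_le_mul_of_nonneg_right hwA hZpos.le
      _ = ℓ * (M.card * Z) := by ring
      _ ≤ ℓ * (μ * aA) := mul_le_mul_of_nonneg_left e3 hℓ0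
  have e5 : (μ + 1) * ((∑ T ∈ A, w T) * Z) ≤ (μ + 1) * (ℓ * (μ * aA)) :=
    mul_le_mul_of_nonneg_left e4 (by linarith)
  have e6 : (μ + 1) * (ℓ * (μ * aA)) = ((μ + 1) * y0 * Z - μ * Z') * aA := by
    rw [← e1]; ring
  nlinarith [e5, e6]

/-- `Y` is monotone under adding vertices. -/
theorem Y_mono : ∀ (n : ℕ) (W : Finset V), W.card = n → ∀ μ : ℝ, (n : ℝ) - 1 < μ →
    ∀ U ⊆ W, Y G U μ ≤ Y G W μ := by
  intro n
  induction n with
  | zero =>
    intro W hW μ _ U hU
    have : W = ∅ := Finset.card_eq_zero.1 hW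
    subst this
    rw [Finset.subset_empty.1 hU]
  | succ n ih =>
    intro W hW μ hμ U hU
    push_cast at hμ
    rcases eq_or_ne U W with rfl | hne
    · exact le_rfl
    · obtain ⟨v, hvW, hvU⟩ : ∃ v ∈ W, v ∉ U := by
        by_contra h
        push Not at h
        exact hne (Finset.Subset.antisymm hU h)
      set H := W.erase v with hH
      have hvH : v ∉ H := Finset.notMem_erase v W
      have hWH : W = insert v H := (Finset.insert_erase hvW).symm
      have hHc : H.card = n := by
        rw [hH, Finset.card_erase_of_mem hvW, hW]; rfl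
      have hUH : U ⊆ H := fun a ha => by
        rw [hH, Finset.mem_erase]
        exact ⟨fun h => hvU (h ▸ ha), hU ha⟩
      have h1 : Y G U μ ≤ Y G H μ := ih H hHc μ (by linarith) U hUH
      have h2 : Y G H μ ≤ Y G (insert v H) μ := by
        refine key G H v hvH μ (by rw [hHc]; linarith) ?_
        intro U' hU'
        exact ih H hHc (μ - 1) (by linarith) U' hU'
      rw [hWH]
      exact h1.trans h2

theorem Y_mono' (W U : Finset V) (hU : U ⊆ W) (μ : ℝ) (hμ : (W.card : ℝ) - 1 < μ) :
    Y G U μ ≤ Y G W μ := Y_mono G _ W rfl μ hμ U hU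

/-- log-concavity for `x > n` -/
theorem logconcave_lt (W : Finset V) (x : ℝ) (hx : (W.card : ℝ) < x) :
    (P G W).eval (x + 1) * (P G W).eval (x - 1) ≤ (P G W).eval x ^ 2 := by
  have hx1 : x - 1 + 1 = x := by ring
  have hpos : 0 < (P G W).eval (x - 1) := P_pos' G _ _ (by linarith)
  have h1 : (P G W).eval (x + 1) ≤ Y G W (x - 1) * (P G W).eval x := by
    rw [P_add_one G W x]
    have h2 := P_add_one G W (x - 1)
    rw [hx1] at h2
    conv_rhs => rw [h2]
    rw [Finset.mul_sum]
    refine Finset.sum_le_sum fun T _ => ?_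
    have h3 := Y_mono' G W (W \ T) Finset.sdiff_subset (x - 1) (by linarith)
    have hc : ((W \ T).card : ℝ) ≤ W.card := by
      exact_mod_cast Finset.card_le_card Finset.sdiff_subset
    have h4 : 0 < (P G (W \ T)).eval (x - 1) := P_pos' G _ _ (by linarith)
    have h5 : Y G (W \ T) (x - 1) = (P G (W \ T)).eval x / (P G (W \ T)).eval (x - 1) := by
      simp only [Y, hx1]
    rw [h5, div_le_iff₀ h4] at h3
    exact h3
  have h6 : Y G W (x - 1) = (P G W).eval x / (P G W).eval (x - 1) := by
    simp only [Y, hx1]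
  rw [h6, div_mul_eq_mul_div, le_div_iff₀ hpos] at h1
  nlinarith [h1]

/-- log-concavity for `x ≥ n` -/
theorem logconcave (W : Finset V) (x : ℝ) (hx : (W.card : ℝ) ≤ x) :
    (P G W).eval (x + 1) * (P G W).eval (x - 1) ≤ (P G W).eval x ^ 2 := by
  have hcont1 : Continuous fun t : ℝ => (P G W).eval (t + 1) * (P G W).eval (t - 1) := by
    fun_prop
  have hcont2 : Continuous fun t : ℝ => (P G W).eval t ^ 2 := by
    fun_prop
  have hcl : IsClosed {t : ℝ | (P G W).eval (t + 1) * (P G W).eval (t - 1) ≤ (P G W).eval t ^ 2} :=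
    isClosed_le hcont1 hcont2
  have hsub : Set.Ioi (W.card : ℝ) ⊆
      {t : ℝ | (P G W).eval (t + 1) * (P G W).eval (t - 1) ≤ (P G W).eval t ^ 2} :=
    fun t ht => logconcave_lt G W t ht
  have h := closure_minimal hsub hcl
  rw [closure_Ioi] at h
  exact h hx

end Pool.Agent.H862R2.Chrom
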