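import Pool.Agent.H862R2.Chrom

set_option autoImplicit false
set_option linter.unusedSectionVars false

/-!
`cnt G k univ` is the number of proper colourings of `G` with `k` colours.
-/

namespace Pool.Agent.H862R2.Chrom

open Finset

universe u

variable {V : Type u} [DecidableEq V] [Fintype V] (G : SimpleGraph V)

open Classical in
/-- partial colourings with support `W`, colours `1..k`, `0` = uncoloured -/
noncomputable def F (k : ℕ) (W : Finset V) : Finset (V → ℕ) :=
  (Fintype.piFinset fun _ : V => range (k + 1)).filter
    (fun c => (∀ a, c a ≠ 0 ↔ a ∈ W) ∧ ∀ a b, G.Adj a b → c a ≠ 0 → c a ≠ c b)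

theorem mem_F {k : ℕ} {W : Finset V} {c : V → ℕ} :
    c ∈ F G k W ↔ (∀ a, c a ≤ k) ∧ (∀ a, c a ≠ 0 ↔ a ∈ W) ∧
      ∀ a b, G.Adj a b → c a ≠ 0 → c a ≠ c b := by
  simp only [F, Finset.mem_filter, Fintype.mem_piFinset, Finset.mem_range, Nat.lt_succ_iff]

theorem card_F_zero (W : Finset V) : (F G 0 W).card = if W = ∅ then 1 else 0 := by
  split_ifs with h
  · subst h
    rw [Finset.card_eq_one]
    refine ⟨fun _ => 0, ?_⟩
    ext c
    rw [mem_F, Finset.mem_singleton]
    constructor
    · rintro ⟨h1, -, -⟩
      funext a
      exact Nat.le_zero.1 (h1 a)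
    · rintro rfl
      simp
  · rw [Finset.card_eq_zero, Finset.eq_empty_iff_forall_notMem]
    intro c hc
    rw [mem_F] at hc
    obtain ⟨a, ha⟩ := Finset.nonempty_iff_ne_empty.2 h
    have h1 := (hc.2.1 a).2 ha
    exact h1 (Nat.le_zero.1 (hc.1 a))

theorem card_F_succ (k : ℕ) (W : Finset V) :
    (F G (k + 1) W).card = ∑ T ∈ I G W, (F G k (W \ T)).card := by
  classical
  rw [Finset.card_eq_sum_card_fiberwise (f := fun c : V → ℕ => univ.filter fun a => c a = k + 1)
    (t := I G W)]
  · refine Finset.sum_congr rfl fun T hT => ?_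
    rw [mem_I] at hT
    refine Finset.card_bij' (fun c _ => fun a => if c a = k + 1 then 0 else c a)
      (fun c _ => fun a => if a ∈ T then k + 1 else c a) ?_ ?_ ?_ ?_
    · intro c hc
      rw [Finset.mem_filter, mem_F] at hc
      obtain ⟨⟨h1, h2, h3⟩, h4⟩ := hc
      have h4' : ∀ a, a ∈ T ↔ c a = k + 1 := fun a => by rw [← h4]; simp
      rw [mem_F]
      refine ⟨fun a => ?_, fun a => ?_, fun a b hab => ?_⟩
      · split_ifs with h
        · omega
        · have := h1 a; omega
      · rw [Finset.mem_sdiff, h4' a, ← h2 a]
        split_ifs with h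
        · simp [h]
        · simp [h]
      · have := h3 a b hab
        split_ifs with h h' h'
        · intro h0; exact absurd rfl h0
        · intro h0; exact absurd rfl h0
        · intro h0; exact h0
        · exact this
    · intro c hc
      rw [mem_F] at hc
      obtain ⟨h1, h2, h3⟩ := hc
      rw [Finset.mem_filter, mem_F]
      refine ⟨⟨fun a => ?_, fun a => ?_, fun a b hab => ?_⟩, ?_⟩
      · split_ifs with h
        · exact le_rfl
        · have := h1 a; omega
      · split_ifs with h
        · simp [hT.1 h]
        · rw [h2 a, Finset.mem_sdiff]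
          tauto
      · split_ifs with h h' h'
        · exact absurd hab (hT.2 a h b h')
        · intro _
          have := h1 b; omega
        · intro _
          have := h1 a; omega
        · exact h3 a b hab
      · ext a
        simp only [Finset.mem_filter, Finset.mem_univ, true_and]
        split_ifs with h
        · simp [h]
        · have := h1 a
          simp only [h, iff_false]
          omega
    · intro c hc
      rw [Finset.mem_filter, mem_F] at hc
      obtain ⟨⟨h1, h2, h3⟩, h4⟩ := hc
      have h4' : ∀ a, a ∈ T ↔ c a = k + 1 := fun a => by rw [← h4]; simp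
      funext a
      dsimp only
      by_cases h : a ∈ T
      · rw [if_pos h, (h4' a).1 h]
      · rw [if_neg h, if_neg (fun h' => h ((h4' a).2 h'))]
    · intro c hc
      rw [mem_F] at hc
      obtain ⟨h1, h2, h3⟩ := hc
      funext a
      dsimp only
      by_cases h : a ∈ T
      · simp only [h, if_true]
        by_contra h0
        have := (h2 a).1 (fun h' => h0 h'.symm)
        exact (Finset.mem_sdiff.1 this).2 h
      · have h5 : c a ≠ k + 1 := by have := h1 a; omega
        simp only [h, if_false, h5]
  · intro c hc
    simp only [Finset.mem_coe] at hc ⊢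
    rw [mem_F] at hc
    obtain ⟨h1, h2, h3⟩ := hc
    rw [mem_I]
    constructor
    · intro a ha
      rw [Finset.mem_filter] at ha
      rw [← h2 a, ha.2]; omega
    · intro a ha b hb hab
      rw [Finset.mem_filter] at ha hb
      exact h3 a b hab (by rw [ha.2]; omega) (by rw [ha.2, hb.2])

theorem card_F (k : ℕ) : ∀ W : Finset V, (F G k W).card = cnt G k W := by
  induction k with
  | zero => intro W; rw [card_F_zero]; rfl
  | succ k ih =>
    intro W
    rw [card_F_succ, cnt_succ]
    exact Finset.sum_congr rfl fun T _ => ih _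

/-- colourings of `G` with `k` colours -/
noncomputable def colEquiv (k : ℕ) : G.Coloring (Fin k) ≃ {c : V → ℕ // c ∈ F G k Finset.univ} where
  toFun c := ⟨fun a => (c a).val + 1, by
    rw [mem_F]
    refine ⟨fun a => (c a).isLt, fun a => by simp, fun a b hab _ h => ?_⟩
    have : c a = c b := Fin.ext (by omega)
    exact c.valid hab this⟩
  invFun c := SimpleGraph.Coloring.mk
    (fun a => ⟨c.1 a - 1, by
      have h := (mem_F G).1 c.2
      have h1 := h.1 a
      have h2 := (h.2.1 a).2 (Finset.mem_univ a)
      omega⟩)
    (by
      intro a b hab h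
      have hc := (mem_F G).1 c.2
      have h1 := (hc.2.1 a).2 (Finset.mem_univ a)
      have h2 := (hc.2.1 b).2 (Finset.mem_univ b)
      have h3 := hc.2.2 a b hab h1
      have h4 := Fin.mk.inj h
      omega)
  left_inv c := by
    ext a
    simp [SimpleGraph.Coloring.mk]
  right_inv c := by
    apply Subtype.ext
    funext a
    have hc := (mem_F G).1 c.2
    have h1 := (hc.2.1 a).2 (Finset.mem_univ a)
    simp only [SimpleGraph.Coloring.mk, RelHom.coeFn_mk]
    omega

theorem card_coloring (k : ℕ) : Nat.card (G.Coloring (Fin k)) = cnt G k Finset.univ := by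
  rw [Nat.card_congr (colEquiv G k), ← card_F]
  simp

end Pool.Agent.H862R2.Chrom
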