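import Pool.Agent.H862R2.ChromRes

set_option autoImplicit false
set_option linter.unusedSectionVars false

/-!
Resampling inequalities for proper colourings, the simplicial vertex formula, and sums over
colour classes.
-/

namespace Pool.Agent.H862R2.Chrom

open Finset

universe u

variable {V : Type u} [DecidableEq V] [Fintype V] (G : SimpleGraph V)

/-- cliques -/
def Clq (K : Finset V) : Prop := ∀ a ∈ K, ∀ b ∈ K, a ≠ b → G.Adj a b

/-- number of vertices of `M` with colour `a` -/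
def nu (M : Finset V) (c : V → ℕ) (a : ℕ) : ℕ := (M.filter (fun l => c l = a)).card

theorem cols_sub {q : ℕ} {W : Finset V} {c : V → ℕ} (hc : c ∈ F G q W) (j : V) :
    cols G W j c ⊆ Finset.Icc 1 q := by
  intro a ha
  rw [mem_F] at hc
  obtain ⟨h1, h2, h3⟩ := hc
  rw [cols, Finset.mem_image] at ha
  obtain ⟨i, hi, rfl⟩ := ha
  rw [mem_Nb] at hi
  have := (h2 i).2 hi.1
  rw [Finset.mem_Icc]
  exact ⟨by omega, h1 i⟩

theorem card_Av {q : ℕ} {W : Finset V} {c : V → ℕ} (j : V) (hs : cols G W j c ⊆ Finset.Icc 1 q) :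
    (Av G q W j c).card + (cols G W j c).card = q := by
  unfold Av
  rw [Finset.card_sdiff_of_subset hs, Nat.card_Icc]
  have := Finset.card_le_card hs
  rw [Nat.card_Icc] at this
  omega

theorem F2_pt {q : ℕ} {W : Finset V} {c : V → ℕ} (hc : c ∈ F G q W) {i j : V} (hi : i ∈ W)
    (hj : j ∈ W) (hij : G.Adj j i) :
    ((W.erase j).filter (fun l => c l ∈ Av G q W j c)).card + (cols G W j c).card
      + Yc W i c + 1 ≤ W.card := by
  have hc' := hc
  rw [mem_F] at hc
  obtain ⟨h1, h2, h3⟩ := hc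
  have hji : c j ≠ c i := h3 j i hij ((h2 j).2 hj)
  have hne : j ≠ i := fun h => hji (by rw [h])
  set S := (W.erase j).filter (fun l => ¬ c l ∈ Av G q W j c) with hS
  set S' := (W.erase i).filter (fun l => c l = c i) with hS'
  have hcard : ((W.erase j).filter (fun l => c l ∈ Av G q W j c)).card + S.card
      = (W.erase j).card := by
    rw [hS]
    exact Finset.card_filter_add_card_filter_not (s := W.erase j) (fun l => c l ∈ Av G q W j c)
  rw [Finset.card_erase_of_mem hj] at hcard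
  have hpos : 0 < W.card := Finset.card_pos.2 ⟨j, hj⟩
  have hnot : ∀ l, c l ∈ cols G W j c → c l ∉ Av G q W j c := by
    intro l hl hl'
    rw [Av, Finset.mem_sdiff] at hl'
    exact hl'.2 hl
  have hicols : c i ∈ cols G W j c :=
    Finset.mem_image.2 ⟨i, (mem_Nb G).2 ⟨hi, hij⟩, rfl⟩
  have hsub : S' ⊆ S := by
    intro l hl
    rw [hS', Finset.mem_filter, Finset.mem_erase] at hl
    obtain ⟨⟨hl1, hl2⟩, hl3⟩ := hl
    rw [hS, Finset.mem_filter, Finset.mem_erase]
    refine ⟨⟨?_, hl2⟩, hnot l (by rw [hl3]; exact hicols)⟩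
    rintro rfl
    exact hji hl3
  have hcov : cols G W j c ⊆ (S \ S').image c := by
    intro b hb
    by_cases hbi : b = c i
    · rw [Finset.mem_image]
      refine ⟨i, ?_, hbi.symm⟩
      rw [Finset.mem_sdiff, hS, Finset.mem_filter, Finset.mem_erase, hS', Finset.mem_filter,
        Finset.mem_erase]
      exact ⟨⟨⟨hne.symm, hi⟩, hnot i hicols⟩, fun h => h.1.1 rfl⟩
    · have hb' := hb
      rw [cols, Finset.mem_image] at hb
      obtain ⟨l, hl, rfl⟩ := hb
      rw [mem_Nb] at hl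
      rw [Finset.mem_image]
      refine ⟨l, ?_, rfl⟩
      rw [Finset.mem_sdiff, hS, Finset.mem_filter, Finset.mem_erase, hS', Finset.mem_filter,
        Finset.mem_erase]
      exact ⟨⟨⟨hl.2.ne', hl.1⟩, hnot l hb'⟩, fun h => hbi h.2⟩
  have h4 : (cols G W j c).card ≤ (S \ S').card :=
    (Finset.card_le_card hcov).trans Finset.card_image_le
  rw [Finset.card_sdiff_of_subset hsub] at h4
  have h5 := Finset.card_le_card hsub
  have h6 : Yc W i c = S'.card := rfl
  have h7 : 1 ≤ (cols G W j c).card := Finset.card_pos.2 ⟨_, hicols⟩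
  rw [h6]
  omega

theorem Yc_update_adj {q : ℕ} {W : Finset V} {c : V → ℕ} (hc : c ∈ F G q W) {i j : V} (hi : i ∈ W)
    (hj : j ∈ W) (hij : G.Adj j i) {a : ℕ} (ha : a ∈ Av G q W j c) :
    Yc W i (Function.update c j a) = Yc W i c := by
  rw [mem_F] at hc
  obtain ⟨h1, h2, h3⟩ := hc
  have hji : c j ≠ c i := h3 j i hij ((h2 j).2 hj)
  have hne : i ≠ j := fun h => hji (by rw [h])
  have hicols : c i ∈ cols G W j c :=
    Finset.mem_image.2 ⟨i, (mem_Nb G).2 ⟨hi, hij⟩, rfl⟩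
  have hai : a ≠ c i := by
    rintro rfl
    rw [Av, Finset.mem_sdiff] at ha
    exact ha.2 hicols
  unfold Yc
  congr 1
  refine Finset.filter_congr fun l hl => ?_
  rw [Function.update_of_ne hne]
  by_cases hlj : l = j
  · subst hlj
    rw [Function.update_self]
    exact ⟨fun h => absurd h hai, fun h => absurd h hji⟩
  · rw [Function.update_of_ne hlj]

theorem F2 {p : ℕ} {W : Finset V} (hW : W.card ≤ p + 1) {i j : V} (hi : i ∈ W) (hj : j ∈ W)
    (hij : G.Adj j i) :
    (p : ℝ) * ∑ c ∈ F G (p + 1) W, (Yc W j c : ℝ) + ∑ c ∈ F G (p + 1) W, (Yc W i c : ℝ)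
      ≤ ((W.card : ℝ) - 2) * (F G (p + 1) W).card := by
  rw [Finset.mul_sum, ← Finset.sum_add_distrib,
    resample G (p + 1) W j hj (fun c => (p : ℝ) * Yc W j c + Yc W i c)]
  have hterm : ∀ c ∈ F G (p + 1) W,
      (∑ a ∈ Av G (p + 1) W j c, ((p : ℝ) * Yc W j (Function.update c j a)
        + Yc W i (Function.update c j a))) / ((Av G (p + 1) W j c).card : ℝ)
      ≤ (W.card : ℝ) - 2 := by
    intro c hc
    have hpos : (0 : ℝ) < (Av G (p + 1) W j c).card := by
      exact_mod_cast Finset.card_pos.2 ⟨_, self_mem_Av G hj hc⟩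
    rw [div_le_iff₀ hpos, Finset.sum_add_distrib, ← Finset.mul_sum, sum_Yc_update]
    have h1 : ∑ a ∈ Av G (p + 1) W j c, (Yc W i (Function.update c j a) : ℝ)
        = (Av G (p + 1) W j c).card * (Yc W i c : ℝ) := by
      rw [Finset.sum_congr rfl (fun a ha => by rw [Yc_update_adj G hc hi hj hij ha]),
        Finset.sum_const, nsmul_eq_mul]
    rw [h1]
    have h2 := F2_pt G hc hi hj hij
    have h3 := card_Av G j (cols_sub G hc j)
    have h4 : 1 ≤ (cols G W j c).card :=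
      Finset.card_pos.2 ⟨c i, Finset.mem_image.2 ⟨i, (mem_Nb G).2 ⟨hi, hij⟩, rfl⟩⟩
    have h2' : (((W.erase j).filter (fun l => c l ∈ Av G (p + 1) W j c)).card : ℝ)
        + ((cols G W j c).card : ℝ) + (Yc W i c : ℝ) + 1 ≤ W.card := by exact_mod_cast h2
    have h3' : ((Av G (p + 1) W j c).card : ℝ) + ((cols G W j c).card : ℝ) = p + 1 := by
      exact_mod_cast h3
    have h4' : (1 : ℝ) ≤ ((cols G W j c).card : ℝ) := by exact_mod_cast h4
    have h6 : (0 : ℝ) ≤ (Yc W i c : ℝ) := Nat.cast_nonneg _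
    set A : ℝ := ((Av G (p + 1) W j c).card : ℝ) with hA
    set C : ℝ := ((cols G W j c).card : ℝ) with hC
    set Y : ℝ := (Yc W i c : ℝ) with hY
    set cd : ℝ := (((W.erase j).filter (fun l => c l ∈ Av G (p + 1) W j c)).card : ℝ) with hcd
    have h5 : (W.card : ℝ) ≤ p + 1 := by exact_mod_cast hW
    have h7 : (0 : ℝ) ≤ p := Nat.cast_nonneg _
    have h8 : (p : ℝ) * (cd + C + Y + 1) ≤ p * W.card := mul_le_mul_of_nonneg_left h2' h7
    have h9 : A = p + 1 - C := by linarith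
    rw [h9]
    nlinarith [mul_nonneg (sub_nonneg.2 h4') (by linarith : 0 ≤ (p : ℝ) - (W.card - 2 - Y))]
  refine (Finset.sum_le_card_nsmul _ _ _ hterm).trans ?_
  rw [nsmul_eq_mul, mul_comm]

theorem sum_min {M : Finset V} {p : ℕ} (hM : M.card ≤ p + 1) (s : V → ℝ)
    (h : ∀ j ∈ M, ∃ i ∈ M, (p : ℝ) * s j + s i ≤ 0) : ∑ j ∈ M, s j ≤ 0 := by
  rcases M.eq_empty_or_nonempty with rfl | hne
  · simp
  obtain ⟨i0, hi0, hmin⟩ := Finset.exists_min_image M s hne
  rcases Nat.eq_zero_or_pos p with hp | hp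
  · subst hp
    have hcard : M.card = 1 := by
      have := Finset.card_pos.2 hne
      omega
    obtain ⟨x, rfl⟩ := Finset.card_eq_one.1 hcard
    obtain ⟨i, hi, hh⟩ := h x (Finset.mem_singleton_self x)
    rw [Finset.mem_singleton] at hi
    subst hi
    simp at hh ⊢
    exact hh
  have hp' : (0 : ℝ) < p := by exact_mod_cast hp
  have hb : ∀ j ∈ M, s j ≤ - s i0 / p := by
    intro j hj
    obtain ⟨i, hi, hh⟩ := h j hj
    have := hmin i hi
    rw [le_div_iff₀ hp']
    nlinarith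
  by_cases h0 : 0 ≤ s i0
  · refine Finset.sum_nonpos fun j hj => (hb j hj).trans ?_
    exact div_nonpos_of_nonpos_of_nonneg (by linarith) hp'.le
  · push Not at h0
    rw [← Finset.add_sum_erase M s hi0]
    have h1 : ∑ j ∈ M.erase i0, s j ≤ (M.erase i0).card • (- s i0 / p) :=
      Finset.sum_le_card_nsmul _ _ _ fun j hj => hb j (Finset.mem_of_mem_erase hj)
    rw [nsmul_eq_mul, Finset.card_erase_of_mem hi0] at h1
    have h2 : ((M.card - 1 : ℕ) : ℝ) ≤ p := by exact_mod_cast (by omega : M.card - 1 ≤ p)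
    have h3 : ((M.card - 1 : ℕ) : ℝ) * (- s i0 / p) ≤ p * (- s i0 / p) :=
      mul_le_mul_of_nonneg_right h2 (div_nonneg (by linarith) hp'.le)
    have h4 : (p : ℝ) * (- s i0 / p) = - s i0 := by field_simp
    linarith

/-- sum of the `Y_j` over `M` -/
theorem F2_sum {p : ℕ} {W M : Finset V} (hW : W.card ≤ p + 1) (hM : M ⊆ W)
    (hnb : ∀ j ∈ M, ∃ i ∈ M, G.Adj j i) :
    ((p : ℝ) + 1) * ∑ c ∈ F G (p + 1) W, ∑ j ∈ M, (Yc W j c : ℝ)
      ≤ M.card * ((W.card : ℝ) - 2) * (F G (p + 1) W).card := by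
  rw [Finset.sum_comm]
  have hp : (0 : ℝ) < (p : ℝ) + 1 := by positivity
  have h := sum_min (M := M) (p := p) ((Finset.card_le_card hM).trans hW)
    (fun j => ∑ c ∈ F G (p + 1) W, (Yc W j c : ℝ)
      - ((W.card : ℝ) - 2) * (F G (p + 1) W).card / (p + 1)) (by
      intro j hj
      obtain ⟨i, hi, hij⟩ := hnb j hj
      refine ⟨i, hi, ?_⟩
      have := F2 G hW (hM hi) (hM hj) hij
      have e : (p : ℝ) * (((W.card : ℝ) - 2) * (F G (p + 1) W).card / (p + 1))
        + ((W.card : ℝ) - 2) * (F G (p + 1) W).card / (p + 1)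
        = ((W.card : ℝ) - 2) * (F G (p + 1) W).card := by
        field_simp
      linarith)
  rw [Finset.sum_sub_distrib, Finset.sum_const, nsmul_eq_mul] at h
  have h2 : ∑ j ∈ M, ∑ c ∈ F G (p + 1) W, (Yc W j c : ℝ)
      ≤ (M.card : ℝ) * (((W.card : ℝ) - 2) * (F G (p + 1) W).card / (p + 1)) := by linarith
  have h3 := mul_le_mul_of_nonneg_left h2 hp.le
  refine h3.trans (le_of_eq ?_)
  field_simp

theorem card_eq_sum_nu {q : ℕ} {W M : Finset V} {c : V → ℕ} (hc : c ∈ F G q W) (hM : M ⊆ W) :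
    M.card = ∑ a ∈ Finset.Icc 1 q, nu M c a := by
  rw [mem_F] at hc
  obtain ⟨h1, h2, h3⟩ := hc
  refine Finset.card_eq_sum_card_fiberwise (f := c) ?_
  intro l hl
  have := (h2 l).2 (hM hl)
  have := h1 l
  simp only [Finset.coe_Icc, Set.mem_Icc]
  omega

theorem F1_pt {q : ℕ} {W K : Finset V} (hK : K ⊆ W) (hKc : Clq G K) {c : V → ℕ}
    (hc : c ∈ F G q W) {κ : V} (hκ : κ ∈ K) :
    ∃ C : ℕ, (Av G q W κ c).card + C + K.card = q + 1 ∧
      ∑ a ∈ Av G q W κ c, nu (W \ K) c a + ∑ κ' ∈ K.erase κ, nu (W \ K) c (c κ') + C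
        ≤ (W \ K).card := by
  have hc' := hc
  rw [mem_F] at hc
  obtain ⟨h1, h2, h3⟩ := hc
  have hinj : Set.InjOn c (K.erase κ : Finset V) := by
    intro a ha b hb hab
    by_contra hne
    have ha' := Finset.mem_of_mem_erase (Finset.mem_coe.1 ha)
    have hb' := Finset.mem_of_mem_erase (Finset.mem_coe.1 hb)
    exact h3 a b (hKc a ha' b hb' hne) ((h2 a).2 (hK ha')) hab
  have himg : (K.erase κ).image c ⊆ cols G W κ c := by
    intro b hb
    rw [Finset.mem_image] at hb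
    obtain ⟨l, hl, rfl⟩ := hb
    rw [Finset.mem_erase] at hl
    exact Finset.mem_image.2 ⟨l, (mem_Nb G).2 ⟨hK hl.2, hKc κ hκ l hl.2 hl.1.symm⟩, rfl⟩
  have hcard : ((K.erase κ).image c).card = K.card - 1 := by
    rw [Finset.card_image_of_injOn hinj, Finset.card_erase_of_mem hκ]
  have hKpos : 0 < K.card := Finset.card_pos.2 ⟨κ, hκ⟩
  refine ⟨(cols G W κ c \ (K.erase κ).image c).card, ?_, ?_⟩
  · have h4 := card_Av G κ (cols_sub G hc' κ)
    rw [Finset.card_sdiff_of_subset himg]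
    have h5 := Finset.card_le_card himg
    omega
  · have h6 := card_eq_sum_nu G hc' (Finset.sdiff_subset : W \ K ⊆ W)
    have h7 : ∑ a ∈ Finset.Icc 1 q, nu (W \ K) c a
        = ∑ a ∈ Av G q W κ c, nu (W \ K) c a + ∑ a ∈ cols G W κ c, nu (W \ K) c a := by
      unfold Av
      exact (Finset.sum_sdiff (cols_sub G hc' κ)).symm
    have h8 := Finset.sum_sdiff (f := fun a => nu (W \ K) c a) himg
    have h9 : ∑ a ∈ (K.erase κ).image c, nu (W \ K) c a
        = ∑ κ' ∈ K.erase κ, nu (W \ K) c (c κ') := Finset.sum_image hinj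
    have h10 : (cols G W κ c \ (K.erase κ).image c).card
        ≤ ∑ a ∈ cols G W κ c \ (K.erase κ).image c, nu (W \ K) c a := by
      rw [Finset.card_eq_sum_ones]
      refine Finset.sum_le_sum fun a ha => ?_
      rw [Finset.mem_sdiff] at ha
      obtain ⟨ha1, ha2⟩ := ha
      rw [cols, Finset.mem_image] at ha1
      obtain ⟨l, hl, rfl⟩ := ha1
      rw [mem_Nb] at hl
      refine Finset.card_pos.2 ⟨l, ?_⟩
      rw [Finset.mem_filter, Finset.mem_sdiff]
      refine ⟨⟨hl.1, fun hlK => ha2 (Finset.mem_image.2 ⟨l, ?_, rfl⟩)⟩, rfl⟩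
      exact Finset.mem_erase.2 ⟨hl.2.ne', hlK⟩
    omega

theorem F1 {p : ℕ} {W K : Finset V} (hW : W.card ≤ p + 1) (hK : K ⊆ W) (hKc : Clq G K) {κ : V}
    (hκ : κ ∈ K) :
    ((p : ℝ) + 1 - K.card) * ∑ c ∈ F G (p + 1) W, (nu (W \ K) c (c κ) : ℝ)
      + ∑ c ∈ F G (p + 1) W, ∑ κ' ∈ K, (nu (W \ K) c (c κ') : ℝ)
      ≤ (W \ K).card * (F G (p + 1) W).card := by
  rw [Finset.mul_sum, ← Finset.sum_add_distrib]
  have hkw : K.card + (W \ K).card = W.card := by
    rw [Finset.card_sdiff_of_subset hK]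
    have := Finset.card_le_card hK
    omega
  rw [resample G (p + 1) W κ (hK hκ) (fun c => ((p : ℝ) + 1 - K.card) * (nu (W \ K) c (c κ) : ℝ)
    + ∑ κ' ∈ K, (nu (W \ K) c (c κ') : ℝ))]
  have hnu : ∀ (c : V → ℕ) (a b : ℕ), nu (W \ K) (Function.update c κ a) b = nu (W \ K) c b := by
    intro c a b
    unfold nu
    congr 1
    refine Finset.filter_congr fun l hl => ?_
    rw [Function.update_of_ne]
    rintro rfl
    exact (Finset.mem_sdiff.1 hl).2 hκ
  have hterm : ∀ c ∈ F G (p + 1) W,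
      (∑ a ∈ Av G (p + 1) W κ c, (((p : ℝ) + 1 - K.card)
          * (nu (W \ K) (Function.update c κ a) ((Function.update c κ a) κ) : ℝ)
        + ∑ κ' ∈ K, (nu (W \ K) (Function.update c κ a) ((Function.update c κ a) κ') : ℝ)))
          / ((Av G (p + 1) W κ c).card : ℝ)
      ≤ (W \ K).card := by
    intro c hc
    have hpos : (0 : ℝ) < (Av G (p + 1) W κ c).card := by
      exact_mod_cast Finset.card_pos.2 ⟨_, self_mem_Av G (hK hκ) hc⟩
    rw [div_le_iff₀ hpos]
    have h1 : ∀ a ∈ Av G (p + 1) W κ c, (((p : ℝ) + 1 - K.card)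
          * (nu (W \ K) (Function.update c κ a) ((Function.update c κ a) κ) : ℝ)
        + ∑ κ' ∈ K, (nu (W \ K) (Function.update c κ a) ((Function.update c κ a) κ') : ℝ))
        = ((p : ℝ) + 1 - K.card + 1) * (nu (W \ K) c a : ℝ)
          + ∑ κ' ∈ K.erase κ, (nu (W \ K) c (c κ') : ℝ) := by
      intro a _
      rw [← Finset.add_sum_erase K _ hκ, Function.update_self, hnu]
      have : ∀ κ' ∈ K.erase κ,
          (nu (W \ K) (Function.update c κ a) ((Function.update c κ a) κ') : ℝ)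
          = (nu (W \ K) c (c κ') : ℝ) := by
        intro κ' hκ'
        rw [hnu, Function.update_of_ne (Finset.ne_of_mem_erase hκ')]
      rw [Finset.sum_congr rfl this]
      ring
    rw [Finset.sum_congr rfl h1, Finset.sum_add_distrib, ← Finset.mul_sum, Finset.sum_const,
      nsmul_eq_mul]
    obtain ⟨C, hC1, hC2⟩ := F1_pt G hK hKc hc hκ
    have hC1' : ((Av G (p + 1) W κ c).card : ℝ) + C + K.card = p + 1 + 1 := by exact_mod_cast hC1
    have hC2' : ∑ a ∈ Av G (p + 1) W κ c, (nu (W \ K) c a : ℝ)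
        + ∑ κ' ∈ K.erase κ, (nu (W \ K) c (c κ') : ℝ) + C ≤ (W \ K).card := by
      exact_mod_cast hC2
    set A : ℝ := ((Av G (p + 1) W κ c).card : ℝ) with hA
    set X : ℝ := ∑ κ' ∈ K.erase κ, (nu (W \ K) c (c κ') : ℝ) with hX
    set cd : ℝ := ∑ a ∈ Av G (p + 1) W κ c, (nu (W \ K) c a : ℝ) with hcd
    have hX0 : 0 ≤ X := Finset.sum_nonneg fun _ _ => Nat.cast_nonneg _
    have hC0 : (0 : ℝ) ≤ C := Nat.cast_nonneg _
    have hkw' : (K.card : ℝ) + (W \ K).card ≤ p + 1 := by exact_mod_cast (hkw.le.trans hW)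
    have hD : (p : ℝ) + 1 - K.card + 1 = A + C := by linarith
    rw [hD]
    have h2 : (A + C) * (cd + X + C) ≤ (A + C) * (W \ K).card :=
      mul_le_mul_of_nonneg_left hC2' (by positivity)
    have h3 : 0 ≤ C * (A + C - ((W \ K).card - X)) :=
      mul_nonneg hC0 (by linarith)
    nlinarith
  refine (Finset.sum_le_card_nsmul _ _ _ hterm).trans ?_
  rw [nsmul_eq_mul, mul_comm]

theorem F1_sum {p : ℕ} {W K : Finset V} (hW : W.card ≤ p + 1) (hK : K ⊆ W) (hKc : Clq G K) :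
    ((p : ℝ) + 1) * ∑ c ∈ F G (p + 1) W, ∑ κ ∈ K, (nu (W \ K) c (c κ) : ℝ)
      ≤ K.card * (W \ K).card * (F G (p + 1) W).card := by
  have h := Finset.sum_le_sum fun κ hκ => F1 G hW hK hKc (κ := κ) hκ
  rw [Finset.sum_add_distrib, ← Finset.mul_sum, Finset.sum_const, Finset.sum_const,
    nsmul_eq_mul, nsmul_eq_mul, Finset.sum_comm] at h
  linarith

end Pool.Agent.H862R2.Chrom
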