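import Pool.Agent.H862R2.ChromF

set_option autoImplicit false
set_option linter.unusedSectionVars false

/-!
The ratio inequality `cnt (q-1) W ≤ (1 - k/q) (1 - 1/q)^m cnt q W` for a clique of size `k` and
`m` other vertices, `q ≥ k + m`.
-/

namespace Pool.Agent.H862R2.Chrom

open Finset

universe u

variable {V : Type u} [DecidableEq V] [Fintype V] (G : SimpleGraph V)

theorem Nb_erase (W : Finset V) (v : V) : Nb G (W.erase v) v = Nb G W v := by
  ext i
  rw [mem_Nb, mem_Nb, Finset.mem_erase]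
  constructor
  · exact fun h => ⟨h.1.2, h.2⟩
  · exact fun h => ⟨⟨h.2.ne', h.1⟩, h.2⟩

theorem cols_erase (W : Finset V) (v : V) (c : V → ℕ) :
    cols G (W.erase v) v c = cols G W v c := by
  unfold cols; rw [Nb_erase]

theorem card_F_vertex (q : ℕ) (W : Finset V) (v : V) (hv : v ∈ W) :
    (F G q W).card = ∑ c ∈ F G q (W.erase v), (Av G q W v c).card := by
  rw [← Finset.card_sigma]
  refine Finset.card_bij' (fun c _ => ⟨Function.update c v 0, c v⟩)
    (fun x _ => Function.update x.1 v x.2) ?_ ?_ ?_ ?_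
  · intro c hc
    rw [Finset.mem_sigma]
    refine ⟨?_, ?_⟩
    · dsimp only
      rw [mem_F] at hc ⊢
      obtain ⟨h1, h2, h3⟩ := hc
      refine ⟨fun x => ?_, fun x => ?_, fun x y hxy => ?_⟩
      · by_cases h : x = v
        · subst h; rw [Function.update_self]; omega
        · rw [Function.update_of_ne h]; exact h1 x
      · by_cases h : x = v
        · subst h
          rw [Function.update_self]
          simp
        · rw [Function.update_of_ne h, Finset.mem_erase, h2 x]
          tauto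
      · by_cases hx : x = v
        · subst hx
          rw [Function.update_self]
          intro h; exact absurd rfl h
        · rw [Function.update_of_ne hx]
          by_cases hy : y = v
          · subst hy
            rw [Function.update_self]
            intro h; exact h
          · rw [Function.update_of_ne hy]
            exact h3 x y hxy
    · dsimp only
      rw [Av_update]
      exact self_mem_Av G hv hc
  · rintro ⟨c, a⟩ hx
    rw [Finset.mem_sigma] at hx
    obtain ⟨hc, ha⟩ := hx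
    dsimp only at hc ha ⊢
    rw [mem_F] at hc ⊢
    obtain ⟨h1, h2, h3⟩ := hc
    rw [Av, Finset.mem_sdiff, Finset.mem_Icc] at ha
    obtain ⟨⟨ha1, haq⟩, hac⟩ := ha
    refine ⟨fun x => ?_, fun x => ?_, fun x y hxy => ?_⟩
    · by_cases h : x = v
      · subst h; rw [Function.update_self]; exact haq
      · rw [Function.update_of_ne h]; exact h1 x
    · by_cases h : x = v
      · subst h; rw [Function.update_self]
        exact ⟨fun _ => hv, fun _ => by omega⟩
      · rw [Function.update_of_ne h, h2 x, Finset.mem_erase]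
        tauto
    · by_cases hx : x = v
      · subst hx
        have hy : y ≠ x := fun h => by subst h; exact G.loopless.irrefl _ hxy
        rw [Function.update_self, Function.update_of_ne hy]
        intro _ h
        by_cases hyW : y ∈ W
        · exact hac (Finset.mem_image.2 ⟨y, (mem_Nb G).2 ⟨hyW, hxy⟩, h.symm⟩)
        · have : c y = 0 := by
            by_contra h0
            exact hyW (Finset.mem_of_mem_erase ((h2 y).1 h0))
          omega
      · rw [Function.update_of_ne hx]
        by_cases hy : y = v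
        · subst hy
          rw [Function.update_self]
          intro h0 h
          have hxW := (h2 x).1 h0
          exact hac (Finset.mem_image.2
            ⟨x, (mem_Nb G).2 ⟨Finset.mem_of_mem_erase hxW, hxy.symm⟩, h⟩)
        · rw [Function.update_of_ne hy]
          exact h3 x y hxy
  · intro c _
    dsimp only
    rw [Function.update_idem, Function.update_eq_self]
  · rintro ⟨c, a⟩ hx
    rw [Finset.mem_sigma] at hx
    obtain ⟨hc, ha⟩ := hx
    dsimp only at hc ha ⊢
    rw [mem_F] at hc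
    obtain ⟨h1, h2, h3⟩ := hc
    have hcv : c v = 0 := by
      by_contra h0
      exact (Finset.mem_erase.1 ((h2 v).1 h0)).1 rfl
    have : Function.update (Function.update c v a) v 0 = c := by
      rw [Function.update_idem, ← hcv, Function.update_eq_self]
    rw [this, Function.update_self]

/-- a simplicial vertex -/
theorem cnt_simplicial (q : ℕ) (W : Finset V) (v : V) (hv : v ∈ W) (hs : Clq G (Nb G W v)) :
    cnt G q W = (q - (Nb G W v).card) * cnt G q (W.erase v) := by
  rw [← card_F, ← card_F, card_F_vertex G q W v hv]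
  have h : ∀ c ∈ F G q (W.erase v), (Av G q W v c).card = q - (Nb G W v).card := by
    intro c hc
    have h1 : cols G W v c ⊆ Finset.Icc 1 q := by
      rw [← cols_erase]; exact cols_sub G hc v
    have h2 := card_Av G v h1
    have h3 : (cols G W v c).card = (Nb G W v).card := by
      unfold cols
      refine Finset.card_image_of_injOn ?_
      intro a ha b hb hab
      by_contra hne
      have ha' := Finset.mem_coe.1 ha
      have hb' := Finset.mem_coe.1 hb
      rw [mem_F] at hc
      obtain ⟨g1, g2, g3⟩ := hc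
      refine g3 a b (hs a ha' b hb' hne) ((g2 a).2 ?_) hab
      rw [mem_Nb] at ha'
      exact Finset.mem_erase.2 ⟨ha'.2.ne', ha'.1⟩
    omega
  rw [Finset.sum_congr rfl h, Finset.sum_const, smul_eq_mul, mul_comm]

/-! ### sums over colour classes -/

theorem sum_cls_inter {p : ℕ} {W S : Finset V} (hS : S ⊆ W) {c : V → ℕ} (hc : c ∈ F G (p + 1) W)
    (h : ℕ → ℝ) :
    ∑ a ∈ Finset.Icc 1 (p + 1), ((cls c a ∩ S).card : ℝ) * h a = ∑ j ∈ S, h (c j) := by
  have h1 : ∀ a ∈ Finset.Icc 1 (p + 1), ((cls c a ∩ S).card : ℝ) * h a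
      = ∑ j ∈ S, if c j = a then h a else 0 := by
    intro a _
    rw [← Finset.sum_filter, Finset.sum_const, nsmul_eq_mul]
    congr 2
    congr 1
    ext v
    rw [Finset.mem_inter, mem_cls, Finset.mem_filter]
    tauto
  rw [Finset.sum_congr rfl h1, Finset.sum_comm]
  refine Finset.sum_congr rfl fun j hj => ?_
  rw [mem_F] at hc
  obtain ⟨g1, g2, g3⟩ := hc
  have g4 := (g2 j).2 (hS hj)
  have g5 := g1 j
  rw [Finset.sum_ite_eq, if_pos]
  rw [Finset.mem_Icc]; omega

theorem sumT_one (p : ℕ) (W : Finset V) :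
    ∑ T ∈ I G W, (cnt G p (W \ T) : ℝ) = (cnt G (p + 1) W : ℝ) := by
  rw [cnt_succ]; push_cast; rfl

theorem sumT_S (p : ℕ) (W S : Finset V) (hS : S ⊆ W) :
    ((p : ℝ) + 1) * ∑ T ∈ I G W, (cnt G p (W \ T) : ℝ) * ((T ∩ S).card : ℝ)
      = S.card * (cnt G (p + 1) W : ℝ) := by
  rw [← sum_classes G p W (fun T => ((T ∩ S).card : ℝ))]
  have : ∀ c ∈ F G (p + 1) W, ∑ a ∈ Finset.Icc 1 (p + 1), ((cls c a ∩ S).card : ℝ)
      = (S.card : ℝ) := by
    intro c hc
    have := sum_cls_inter G hS hc (fun _ => 1)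
    simpa using this
  rw [Finset.sum_congr rfl this, Finset.sum_const, nsmul_eq_mul, card_F, mul_comm]

theorem card_cls_self {p : ℕ} {W : Finset V} {c : V → ℕ} (hc : c ∈ F G (p + 1) W) {j : V}
    (hj : j ∈ W) : (cls c (c j)).card = Yc W j c + 1 := by
  rw [mem_F] at hc
  obtain ⟨g1, g2, g3⟩ := hc
  have h1 : cls c (c j) = insert j ((W.erase j).filter (fun l => c l = c j)) := by
    ext v
    rw [mem_cls, Finset.mem_insert, Finset.mem_filter, Finset.mem_erase]
    constructor
    · intro h
      by_cases hv : v = j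
      · exact Or.inl hv
      · refine Or.inr ⟨⟨hv, (g2 v).1 ?_⟩, h⟩
        rw [h]
        exact (g2 j).2 hj
    · rintro (h | h)
      · rw [h]
      · exact h.2
  rw [h1, Finset.card_insert_of_notMem]
  · rfl
  · intro h
    rw [Finset.mem_filter, Finset.mem_erase] at h
    exact h.1.1 rfl

theorem sumT_M {p : ℕ} {W M : Finset V} (hW : W.card ≤ p + 1) (hM : M ⊆ W)
    (hnb : ∀ j ∈ M, ∃ i ∈ M, G.Adj j i) :
    ((p : ℝ) + 1) ^ 2 * ∑ T ∈ I G W, (cnt G p (W \ T) : ℝ)
        * (((T ∩ M).card : ℝ) * ((T.card : ℝ) - 1))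
      ≤ M.card * ((W.card : ℝ) - 2) * (cnt G (p + 1) W : ℝ) := by
  have h1 := sum_classes G p W (fun T => ((T ∩ M).card : ℝ) * ((T.card : ℝ) - 1))
  have h2 : ∀ c ∈ F G (p + 1) W, ∑ a ∈ Finset.Icc 1 (p + 1),
      ((cls c a ∩ M).card : ℝ) * (((cls c a).card : ℝ) - 1) = ∑ j ∈ M, (Yc W j c : ℝ) := by
    intro c hc
    rw [sum_cls_inter G hM hc (fun a => ((cls c a).card : ℝ) - 1)]
    refine Finset.sum_congr rfl fun j hj => ?_
    rw [card_cls_self G hc (hM hj)]
    push_cast; ring
  rw [Finset.sum_congr rfl h2] at h1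
  have h3 := F2_sum G hW hM hnb
  rw [h1, card_F] at h3
  calc _ = ((p : ℝ) + 1) * (((p : ℝ) + 1) * ∑ T ∈ I G W, (cnt G p (W \ T) : ℝ)
        * (((T ∩ M).card : ℝ) * ((T.card : ℝ) - 1))) := by ring
    _ ≤ _ := h3

theorem sumT_MK {p : ℕ} {W K : Finset V} (hW : W.card ≤ p + 1) (hK : K ⊆ W) (hKc : Clq G K) :
    ((p : ℝ) + 1) ^ 2 * ∑ T ∈ I G W, (cnt G p (W \ T) : ℝ)
        * (((T ∩ K).card : ℝ) * ((T ∩ (W \ K)).card : ℝ))
      ≤ K.card * (W \ K).card * (cnt G (p + 1) W : ℝ) := by
  have h1 := sum_classes G p W (fun T => ((T ∩ K).card : ℝ) * ((T ∩ (W \ K)).card : ℝ))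
  have h2 : ∀ c ∈ F G (p + 1) W, ∑ a ∈ Finset.Icc 1 (p + 1),
      ((cls c a ∩ K).card : ℝ) * ((cls c a ∩ (W \ K)).card : ℝ)
        = ∑ κ ∈ K, (nu (W \ K) c (c κ) : ℝ) := by
    intro c hc
    rw [sum_cls_inter G hK hc (fun a => ((cls c a ∩ (W \ K)).card : ℝ))]
    refine Finset.sum_congr rfl fun j _ => ?_
    congr 1
    unfold nu
    congr 1
    ext v
    rw [Finset.mem_inter, mem_cls, Finset.mem_filter]
    tauto
  rw [Finset.sum_congr rfl h2] at h1
  have h3 := F1_sum G hW hK hKc
  rw [h1, card_F] at h3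
  calc _ = ((p : ℝ) + 1) * (((p : ℝ) + 1) * ∑ T ∈ I G W, (cnt G p (W \ T) : ℝ)
        * (((T ∩ K).card : ℝ) * ((T ∩ (W \ K)).card : ℝ))) := by ring
    _ ≤ _ := h3

theorem sumT_card (q : ℕ) (W : Finset V) :
    ((q : ℝ) + 1) * ∑ T ∈ I G W, (cnt G q (W \ T) : ℝ) * (T.card : ℝ)
      = W.card * (cnt G (q + 1) W : ℝ) := by
  rw [← sumT_S G q W W (Finset.Subset.refl W)]
  congr 1
  refine Finset.sum_congr rfl fun T hT => ?_
  rw [Finset.inter_eq_left.2 ((mem_I G).1 hT).1]

end Pool.Agent.H862R2.Chrom
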