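import Pool.Agent.H862R2.ChromRatio

set_option autoImplicit false
set_option linter.unusedSectionVars false

/-!
The ratio inequality `cnt (q-1) W ≤ (1 - k/q) (1 - 1/q)^m cnt q W` for a clique of size `k` and
`m` other vertices, `q ≥ k + m`.
-/

namespace Pool.Agent.H862R2.Chrom

open Finset

universe u

theorem phi_lower (Q β c0 : ℝ) (tM tK : ℕ) (hQ : 1 ≤ Q) (hβ0 : 0 ≤ β) (hβ1 : β ≤ 1)
    (hc1 : c0 ≤ 1) (htM : (tM : ℝ) ≤ Q) (htK : tK ≤ 1) :
    (tM : ℝ) + tK - c0 - (tM * ((tM + tK) - 1) + (1 - c0) * tM) / Q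
        - β * (tK * tM + (1 - c0) * tK) + β / Q * (2 - c0) * (tK * tM)
      ≤ (1 - 1 / Q) ^ tM * (1 - β) ^ tK * (((tM : ℝ) + tK) - c0) := by
  have hQ0 : 0 < Q := by linarith
  have hbern : 1 - (tM : ℝ) / Q ≤ (1 - 1 / Q) ^ tM := by
    have h1 : 1 / Q ≤ 1 := by rw [div_le_one hQ0]; exact hQ
    have := one_add_mul_le_pow (a := -(1 / Q)) (by linarith) tM
    calc 1 - (tM : ℝ) / Q = 1 + tM * (-(1 / Q)) := by ring
      _ ≤ (1 + -(1 / Q)) ^ tM := this
      _ = (1 - 1 / Q) ^ tM := by ring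
  have hnn : 0 ≤ 1 - (tM : ℝ) / Q := by
    have : (tM : ℝ) / Q ≤ 1 := by rw [div_le_one hQ0]; exact htM
    linarith
  interval_cases tK
  · rcases Nat.eq_zero_or_pos tM with h0 | h0
    · subst h0; simp
    · have h1 : (1 : ℝ) ≤ tM := by exact_mod_cast h0
      have h2 : 0 ≤ (tM : ℝ) - c0 := by linarith
      have h3 := mul_le_mul_of_nonneg_right hbern h2
      simp only [Nat.cast_zero, pow_zero, mul_one, add_zero]
      have e : (tM : ℝ) - c0 - (tM * (tM - 1) + (1 - c0) * tM) / Q
        - β * (0 * tM + (1 - c0) * 0) + β / Q * (2 - c0) * (0 * tM)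
        = (1 - (tM : ℝ) / Q) * (tM - c0) := by
        field_simp
        ring
      rw [e]
      exact h3
  · simp only [Nat.cast_one, pow_one, one_mul, mul_one]
    have h2 : 0 ≤ (1 - β) * ((tM : ℝ) + 1 - c0) := by
      refine mul_nonneg (by linarith) ?_
      have : (0 : ℝ) ≤ tM := Nat.cast_nonneg _
      linarith
    have h3 := mul_le_mul_of_nonneg_right hbern h2
    have h4 : 0 ≤ (tM : ℝ) * (tM - 1) := by
      rcases Nat.eq_zero_or_pos tM with h0 | h0
      · subst h0; simp
      · have h1 : (1 : ℝ) ≤ tM := by exact_mod_cast h0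
        exact mul_nonneg (by linarith) (by linarith)
    have h5 : 0 ≤ β / Q * ((tM : ℝ) * (tM - 1)) := mul_nonneg (div_nonneg hβ0 hQ0.le) h4
    have e : (tM : ℝ) + 1 - c0 - (tM * (tM + 1 - 1) + (1 - c0) * tM) / Q
        - β * (tM + (1 - c0)) + β / Q * (2 - c0) * tM
        = (1 - (tM : ℝ) / Q) * ((1 - β) * (tM + 1 - c0)) - β / Q * ((tM : ℝ) * (tM - 1)) := by
      field_simp
      ring
    rw [e]
    have e2 : (1 - 1 / Q) ^ tM * (1 - β) * ((tM : ℝ) + 1 - c0)
        = (1 - 1 / Q) ^ tM * ((1 - β) * ((tM : ℝ) + 1 - c0)) := by ring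
    rw [e2]
    linarith

theorem bracket (m k Q : ℝ) (hm : 0 ≤ m) (hk : 0 ≤ k) (hQ : 2 ≤ Q) (hn : m + k ≤ Q) :
    0 ≤ m + k - (m + k) / (Q + 1) * Q - m * (m + k - 2) / Q ^ 2
      - (1 - (m + k) / (Q + 1)) * m / Q
      - (1 / (Q - k + 1)) * (1 - (2 - (m + k) / (Q + 1)) / Q) * (k * m) / Q
      - (1 / (Q - k + 1)) * (1 - (m + k) / (Q + 1)) * k := by
  have hQ0 : 0 < Q := by linarith
  have hQ1 : 0 < Q + 1 := by linarith
  have hD : 0 < Q - k + 1 := by linarith
  have e : m + k - (m + k) / (Q + 1) * Q - m * (m + k - 2) / Q ^ 2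
      - (1 - (m + k) / (Q + 1)) * m / Q
      - (1 / (Q - k + 1)) * (1 - (2 - (m + k) / (Q + 1)) / Q) * (k * m) / Q
      - (1 / (Q - k + 1)) * (1 - (m + k) / (Q + 1)) * k
      = m * (Q + 2 - (m + k)) * (1 + (1 / (Q - k + 1)) * k) / (Q ^ 2 * (Q + 1)) := by
    field_simp
    ring
  rw [e]
  refine div_nonneg (mul_nonneg (mul_nonneg hm (by linarith)) ?_) (by positivity)
  have : 0 ≤ (1 / (Q - k + 1)) * k := mul_nonneg (by positivity) hk
  linarith

variable {V : Type u} [DecidableEq V] [Fintype V] (G : SimpleGraph V)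

/-- the weight `φ` -/
noncomputable def phi (Q β : ℝ) (K M T : Finset V) : ℝ :=
  (1 - 1 / Q) ^ (T ∩ M).card * (1 - β) ^ (T ∩ K).card

theorem sum_phi {p : ℕ} {W K : Finset V} (hp : 1 ≤ p) (hW : W.card ≤ p + 1) (hK : K ⊆ W)
    (hKc : Clq G K) (hnb : ∀ j ∈ W \ K, ∃ i ∈ W \ K, G.Adj j i) :
    0 ≤ ∑ T ∈ I G W, (cnt G p (W \ T) : ℝ)
      * (phi ((p : ℝ) + 1) (1 / (((p : ℝ) + 1) - K.card + 1)) K (W \ K) T
        * ((T.card : ℝ) - W.card / (((p : ℝ) + 1) + 1))) := by
  set Q : ℝ := (p : ℝ) + 1 with hQdef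
  have hQ2 : (2 : ℝ) ≤ Q := by
    have : (1 : ℝ) ≤ p := by exact_mod_cast hp
    linarith
  have hQ0 : 0 < Q := by linarith
  have hkw : K.card + (W \ K).card = W.card := by
    rw [Finset.card_sdiff_of_subset hK]
    have := Finset.card_le_card hK
    omega
  have hkw' : (W.card : ℝ) = (W \ K).card + K.card := by
    rw [← hkw]; push_cast; ring
  have hWQ : (W.card : ℝ) ≤ Q := by rw [hQdef]; exact_mod_cast hW
  set k : ℝ := (K.card : ℝ) with hk
  set m : ℝ := ((W \ K).card : ℝ) with hm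
  have hk0 : 0 ≤ k := Nat.cast_nonneg _
  have hm0 : 0 ≤ m := Nat.cast_nonneg _
  set β : ℝ := 1 / (Q - k + 1) with hβ
  set c0 : ℝ := (W.card : ℝ) / (Q + 1) with hc0
  have hD : 1 ≤ Q - k + 1 := by linarith
  have hβ0 : 0 ≤ β := by rw [hβ]; positivity
  have hβ1 : β ≤ 1 := by rw [hβ, div_le_one (by linarith)]; exact hD
  have hc01 : c0 ≤ 1 := by rw [hc0, div_le_one (by linarith)]; linarith
  have hc00 : 0 ≤ c0 := by rw [hc0]; positivity
  have hterm : ∀ T ∈ I G W,
      (cnt G p (W \ T) : ℝ) * (((T ∩ (W \ K)).card : ℝ) + (T ∩ K).card - c0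
        - (((T ∩ (W \ K)).card : ℝ) * ((T.card : ℝ) - 1) + (1 - c0) * (T ∩ (W \ K)).card) / Q
        - β * ((T ∩ K).card * (T ∩ (W \ K)).card + (1 - c0) * (T ∩ K).card)
        + β / Q * (2 - c0) * ((T ∩ K).card * (T ∩ (W \ K)).card))
      ≤ (cnt G p (W \ T) : ℝ) * (phi Q β K (W \ K) T * ((T.card : ℝ) - c0)) := by
    intro T hT
    refine mul_le_mul_of_nonneg_left ?_ (Nat.cast_nonneg _)
    rw [mem_I] at hT
    obtain ⟨hTW, hTi⟩ := hT
    have hcard : T.card = (T ∩ (W \ K)).card + (T ∩ K).card := by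
      rw [← Finset.card_union_of_disjoint]
      · congr 1
        ext v
        rw [Finset.mem_union, Finset.mem_inter, Finset.mem_inter, Finset.mem_sdiff]
        constructor
        · intro hv
          by_cases hvK : v ∈ K
          · exact Or.inr ⟨hv, hvK⟩
          · exact Or.inl ⟨hv, hTW hv, hvK⟩
        · rintro (h | h)
          · exact h.1
          · exact h.1
      · rw [Finset.disjoint_left]
        intro v hv hv'
        rw [Finset.mem_inter] at hv hv'
        exact (Finset.mem_sdiff.1 hv.2).2 hv'.2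
    have htK : (T ∩ K).card ≤ 1 := by
      rw [Finset.card_le_one]
      intro a ha b hb
      rw [Finset.mem_inter] at ha hb
      by_contra hne
      exact hTi a ha.1 b hb.1 (hKc a ha.2 b hb.2 hne)
    have htM : ((T ∩ (W \ K)).card : ℝ) ≤ Q := by
      have h1 : (T ∩ (W \ K)).card ≤ W.card :=
        Finset.card_le_card (Finset.inter_subset_left.trans hTW)
      have h2 : ((T ∩ (W \ K)).card : ℝ) ≤ W.card := by exact_mod_cast h1
      linarith
    have hcard' : (T.card : ℝ) = ((T ∩ (W \ K)).card : ℝ) + (T ∩ K).card := by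
      rw [hcard]; push_cast; ring
    have := phi_lower Q β c0 (T ∩ (W \ K)).card (T ∩ K).card (by linarith) hβ0 hβ1 hc01 htM htK
    unfold phi
    rw [hcard']
    exact this
  refine le_trans ?_ (Finset.sum_le_sum hterm)
  have hone := sumT_one G p W
  have hSM := sumT_S G p W (W \ K) Finset.sdiff_subset
  have hSK := sumT_S G p W K hK
  have hTM := sumT_M G hW (Finset.sdiff_subset : W \ K ⊆ W) hnb
  have hTMK := sumT_MK G hW hK hKc
  rw [← hQdef] at hSM hSK hTM hTMK
  rw [← hm] at hSM hTM hTMK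
  rw [← hk] at hSK hTMK
  set N : ℝ := (cnt G (p + 1) W : ℝ) with hN
  set SM : ℝ := ∑ T ∈ I G W, (cnt G p (W \ T) : ℝ) * ((T ∩ (W \ K)).card : ℝ) with hSMd
  set SK : ℝ := ∑ T ∈ I G W, (cnt G p (W \ T) : ℝ) * ((T ∩ K).card : ℝ) with hSKd
  set TM : ℝ := ∑ T ∈ I G W, (cnt G p (W \ T) : ℝ)
        * (((T ∩ (W \ K)).card : ℝ) * ((T.card : ℝ) - 1)) with hTMd
  set TMK : ℝ := ∑ T ∈ I G W, (cnt G p (W \ T) : ℝ)
        * (((T ∩ K).card : ℝ) * ((T ∩ (W \ K)).card : ℝ)) with hTMKd
  have hsum : ∑ T ∈ I G W, (cnt G p (W \ T) : ℝ) * (((T ∩ (W \ K)).card : ℝ) + (T ∩ K).card - c0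
        - (((T ∩ (W \ K)).card : ℝ) * ((T.card : ℝ) - 1) + (1 - c0) * (T ∩ (W \ K)).card) / Q
        - β * ((T ∩ K).card * (T ∩ (W \ K)).card + (1 - c0) * (T ∩ K).card)
        + β / Q * (2 - c0) * ((T ∩ K).card * (T ∩ (W \ K)).card))
      = (1 - (1 - c0) / Q) * SM + (1 - β * (1 - c0)) * SK - c0 * N - TM / Q
        - (β - β / Q * (2 - c0)) * TMK := by
    rw [← hone, hSMd, hSKd, hTMd, hTMKd]
    simp only [Finset.mul_sum, Finset.sum_div]
    rw [← Finset.sum_add_distrib, ← Finset.sum_sub_distrib, ← Finset.sum_sub_distrib,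
      ← Finset.sum_sub_distrib]
    refine Finset.sum_congr rfl fun T _ => ?_
    ring
  rw [hsum]
  have hN0 : 0 ≤ N := Nat.cast_nonneg _
  have hbr := bracket m k Q hm0 hk0 hQ2 (by rw [← hkw']; exact hWQ)
  rw [← hkw', ← hβ, ← hc0] at hbr
  have eSM : SM = m * N / Q := by rw [← hSM]; field_simp
  have eSK : SK = k * N / Q := by rw [← hSK]; field_simp
  have eTM : TM ≤ m * ((W.card : ℝ) - 2) * N / Q ^ 2 := by
    rw [le_div_iff₀ (by positivity)]; linarith
  have eTMK : TMK ≤ k * m * N / Q ^ 2 := by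
    rw [le_div_iff₀ (by positivity)]; linarith
  have hcoef : 0 ≤ β - β / Q * (2 - c0) := by
    have : (2 - c0) / Q ≤ 1 := by rw [div_le_one hQ0]; linarith
    have e : β - β / Q * (2 - c0) = β * (1 - (2 - c0) / Q) := by ring
    rw [e]
    exact mul_nonneg hβ0 (by linarith)
  have h1 := mul_le_mul_of_nonneg_left eTMK hcoef
  have h2 : TM / Q ≤ m * ((W.card : ℝ) - 2) * N / Q ^ 2 / Q :=
    div_le_div_of_nonneg_right eTM hQ0.le
  have h3 : 0 ≤ N / Q * (m + k - c0 * Q - m * ((W.card : ℝ) - 2) / Q ^ 2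
      - (1 - c0) * m / Q - β * (1 - (2 - c0) / Q) * (k * m) / Q - β * (1 - c0) * k) := by
    refine mul_nonneg (div_nonneg hN0 hQ0.le) ?_
    rw [← hkw']
    exact hbr
  rw [eSM, eSK]
  have h4 : N / Q * (m + k - c0 * Q - m * ((W.card : ℝ) - 2) / Q ^ 2
      - (1 - c0) * m / Q - β * (1 - (2 - c0) / Q) * (k * m) / Q - β * (1 - c0) * k)
      = (1 - (1 - c0) / Q) * (m * N / Q) + (1 - β * (1 - c0)) * (k * N / Q) - c0 * N
        - m * ((W.card : ℝ) - 2) * N / Q ^ 2 / Q
        - (β - β / Q * (2 - c0)) * (k * m * N / Q ^ 2) := by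
    field_simp
    ring
  linarith

/-- the general step -/
theorem ratio_step {p : ℕ} {W K : Finset V} (hp : 1 ≤ p) (hW : W.card ≤ p + 1)
    (hne : W.Nonempty) (hK : K ⊆ W)
    (hKc : Clq G K) (hnb : ∀ j ∈ W \ K, ∃ i ∈ W \ K, G.Adj j i)
    (hm : (W \ K).Nonempty)
    (ih : ∀ T ∈ I G W, T ≠ ∅ → (cnt G p (W \ T) : ℝ)
      ≤ (1 - ((K \ T).card : ℝ) / ((p : ℝ) + 1)) * (1 - 1 / ((p : ℝ) + 1)) ^ ((W \ T) \ (K \ T)).card
        * cnt G (p + 1) (W \ T)) :
    (cnt G p W : ℝ) ≤ (1 - (K.card : ℝ) / ((p : ℝ) + 1))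
      * (1 - 1 / ((p : ℝ) + 1)) ^ (W \ K).card * cnt G (p + 1) W := by
  have hphi := sum_phi G hp hW hK hKc hnb
  have hone := sumT_one G (p + 1) W
  have hcd := sumT_card G (p + 1) W
  push_cast at hcd
  set Q : ℝ := (p : ℝ) + 1 with hQdef
  have hQ2 : (2 : ℝ) ≤ Q := by
    have : (1 : ℝ) ≤ p := by exact_mod_cast hp
    linarith
  have hQ0 : 0 < Q := by linarith
  have hkw : K.card + (W \ K).card = W.card := by
    rw [Finset.card_sdiff_of_subset hK]
    have := Finset.card_le_card hK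
    omega
  have hmpos : 0 < (W \ K).card := Finset.card_pos.2 hm
  have hkQ : (K.card : ℝ) + 1 ≤ Q := by
    rw [hQdef]
    exact_mod_cast (by omega : K.card + 1 ≤ p + 1)
  have hWQ : (W.card : ℝ) ≤ Q := by rw [hQdef]; exact_mod_cast hW
  set β : ℝ := 1 / (Q - K.card + 1) with hβ
  set c0 : ℝ := (W.card : ℝ) / (Q + 1) with hc0
  set R : ℝ := (1 - (K.card : ℝ) / Q) * (1 - 1 / Q) ^ (W \ K).card with hR
  have hWpos : (0 : ℝ) < W.card := by exact_mod_cast Finset.card_pos.2 hne
  have hc0pos : 0 < c0 := by rw [hc0]; positivity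
  have hc01 : c0 ≤ 1 := by rw [hc0, div_le_one (by linarith)]; linarith
  have h1Q : 0 < 1 - 1 / Q := by
    have : 1 / Q < 1 := by rw [div_lt_one hQ0]; linarith
    linarith
  have hRpos : 0 < R := by
    rw [hR]
    refine mul_pos ?_ (pow_pos h1Q _)
    have : (K.card : ℝ) / Q < 1 := by rw [div_lt_one hQ0]; linarith
    linarith
  -- the identity
  have hid : ∑ T ∈ I G W, (cnt G (p + 1) (W \ T) : ℝ) * ((T.card : ℝ) - c0) = 0 := by
    have e1 : ∑ T ∈ I G W, (cnt G (p + 1) (W \ T) : ℝ) * ((T.card : ℝ) - c0)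
        = ∑ T ∈ I G W, (cnt G (p + 1) (W \ T) : ℝ) * (T.card : ℝ)
          - c0 * ∑ T ∈ I G W, (cnt G (p + 1) (W \ T) : ℝ) := by
      rw [Finset.mul_sum, ← Finset.sum_sub_distrib]
      exact Finset.sum_congr rfl fun T _ => by ring
    rw [e1, hone]
    have hQ1 : (Q + 1) ≠ 0 := by intro h; linarith
    have e2 : ∑ T ∈ I G W, (cnt G (p + 1) (W \ T) : ℝ) * (T.card : ℝ)
        = W.card * (cnt G (p + 1 + 1) W : ℝ) / (Q + 1) := by
      rw [← hcd, mul_div_cancel_left₀ _ hQ1]
    rw [e2, hc0, div_mul_eq_mul_div, sub_self]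
  have hE : (∅ : Finset V) ∈ I G W := empty_mem_I G W
  rw [← Finset.add_sum_erase _ _ hE] at hid hphi
  -- comparison term by term
  have hcmp : ∀ T ∈ (I G W).erase ∅, (cnt G p (W \ T) : ℝ)
        * (phi Q β K (W \ K) T * ((T.card : ℝ) - c0))
      ≤ R * ((cnt G (p + 1) (W \ T) : ℝ) * ((T.card : ℝ) - c0)) := by
    intro T hT
    rw [Finset.mem_erase] at hT
    obtain ⟨hT0, hT⟩ := hT
    have hiT := ih T hT hT0
    rw [mem_I] at hT
    obtain ⟨hTW, hTi⟩ := hT
    have htpos : (1 : ℝ) ≤ T.card := by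
      exact_mod_cast Finset.card_pos.2 (Finset.nonempty_iff_ne_empty.2 hT0)
    have htc : 0 ≤ (T.card : ℝ) - c0 := by linarith
    have hmain : (cnt G p (W \ T) : ℝ) * phi Q β K (W \ K) T
        ≤ R * (cnt G (p + 1) (W \ T) : ℝ) := by
      have htK : (T ∩ K).card ≤ 1 := by
        rw [Finset.card_le_one]
        intro a ha b hb
        rw [Finset.mem_inter] at ha hb
        by_contra hne
        exact hTi a ha.1 b hb.1 (hKc a ha.2 b hb.2 hne)
      have hphi0 : 0 ≤ phi Q β K (W \ K) T := by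
        unfold phi
        refine mul_nonneg (pow_nonneg h1Q.le _) (pow_nonneg ?_ _)
        have : β ≤ 1 := by rw [hβ, div_le_one (by linarith)]; linarith
        linarith
      have h5 := mul_le_mul_of_nonneg_right hiT hphi0
      refine h5.trans (le_of_eq ?_)
      have e3 : ((W \ T) \ (K \ T)).card + (T ∩ (W \ K)).card = (W \ K).card := by
        rw [← Finset.card_union_of_disjoint]
        · congr 1
          ext v
          simp only [Finset.mem_union, Finset.mem_inter, Finset.mem_sdiff]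
          tauto
        · rw [Finset.disjoint_left]
          intro v hv hv'
          simp only [Finset.mem_inter, Finset.mem_sdiff] at hv hv'
          tauto
      have e4 : (K \ T).card + (T ∩ K).card = K.card := by
        rw [Finset.inter_comm]; exact Finset.card_sdiff_add_card_inter K T
      have e5 : (1 - ((K \ T).card : ℝ) / Q) * (1 - β) ^ (T ∩ K).card
          = 1 - (K.card : ℝ) / Q := by
        have hD : Q - K.card + 1 ≠ 0 := by
          intro h; linarith
        interval_cases hx : (T ∩ K).card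
        · rw [← e4]; simp
        · have e6 : ((K \ T).card : ℝ) = K.card - 1 := by
            rw [← e4]; push_cast; ring
          rw [e6, pow_one, hβ]
          field_simp
          ring
      unfold phi
      rw [hR, ← e3, pow_add, ← e5]
      ring
    calc (cnt G p (W \ T) : ℝ) * (phi Q β K (W \ K) T * ((T.card : ℝ) - c0))
        = ((cnt G p (W \ T) : ℝ) * phi Q β K (W \ K) T) * ((T.card : ℝ) - c0) := by ring
      _ ≤ (R * (cnt G (p + 1) (W \ T) : ℝ)) * ((T.card : ℝ) - c0) :=
        mul_le_mul_of_nonneg_right hmain htc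
      _ = _ := by ring
  have hsum := Finset.sum_le_sum hcmp
  rw [← Finset.mul_sum] at hsum
  have hphi0 : phi Q β K (W \ K) (∅ : Finset V) = 1 := by simp [phi]
  rw [hphi0] at hphi
  simp only [Finset.sdiff_empty, Finset.card_empty, Nat.cast_zero] at hphi hid
  -- conclude
  have h6 : c0 * (cnt G p W : ℝ) ≤ c0 * (R * cnt G (p + 1) W) := by
    have h7 : ∑ T ∈ (I G W).erase ∅, (cnt G (p + 1) (W \ T) : ℝ) * ((T.card : ℝ) - c0)
        = c0 * cnt G (p + 1) W := by linarith
    rw [h7] at hsum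
    linarith
  exact le_of_mul_le_mul_left h6 hc0pos

theorem ratio_main (p : ℕ) : ∀ (n : ℕ) (W K : Finset V), W.card = n → K ⊆ W → Clq G K →
    n ≤ p + 1 →
    (cnt G p W : ℝ) ≤ (1 - (K.card : ℝ) / ((p : ℝ) + 1))
      * (1 - 1 / ((p : ℝ) + 1)) ^ (W \ K).card * cnt G (p + 1) W := by
  intro n
  induction n using Nat.strong_induction_on with
  | _ n ih =>
    intro W K hWn hK hKc hn
    have hQ0 : (0 : ℝ) < (p : ℝ) + 1 := by positivity
    rcases (W \ K).eq_empty_or_nonempty with hM | hM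
    · have hWK : W = K := Finset.Subset.antisymm (Finset.sdiff_eq_empty_iff_subset.1 hM) hK
      subst hWK
      rcases W.eq_empty_or_nonempty with rfl | ⟨v, hv⟩
      · simp [cnt_empty]
      · have hs : Clq G (Nb G W v) := fun a ha b hb hab =>
          hKc a ((mem_Nb G).1 ha).1 b ((mem_Nb G).1 hb).1 hab
        have hd : (Nb G W v).card = W.card - 1 := by
          rw [← Finset.card_erase_of_mem hv]
          congr 1
          ext i
          rw [mem_Nb, Finset.mem_erase]
          constructor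
          · exact fun h => ⟨h.2.ne', h.1⟩
          · exact fun h => ⟨h.2, hKc v hv i h.2 h.1.symm⟩
        have hpos : 0 < W.card := Finset.card_pos.2 ⟨v, hv⟩
        have hi := ih (W.erase v).card (by rw [Finset.card_erase_of_mem hv]; omega) (W.erase v)
          (W.erase v) rfl (Finset.Subset.refl _)
          (fun a ha b hb hab => hKc a (Finset.mem_of_mem_erase ha) b (Finset.mem_of_mem_erase hb) hab)
          (by rw [Finset.card_erase_of_mem hv]; omega)
        rw [Finset.sdiff_self, Finset.card_empty, pow_zero, mul_one] at hi ⊢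
        rw [cnt_simplicial G p W v hv hs, cnt_simplicial G (p + 1) W v hv hs, hd]
        rw [Finset.card_erase_of_mem hv] at hi
        have c1 : ((p - (W.card - 1) : ℕ) : ℝ) = (p : ℝ) + 1 - W.card := by
          rw [Nat.cast_sub (by omega), Nat.cast_sub (by omega)]; push_cast; ring
        have c2 : ((p + 1 - (W.card - 1) : ℕ) : ℝ) = (p : ℝ) + 2 - W.card := by
          rw [Nat.cast_sub (by omega), Nat.cast_sub (by omega)]; push_cast; ring
        have c3 : ((W.card - 1 : ℕ) : ℝ) = (W.card : ℝ) - 1 := by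
          rw [Nat.cast_sub (by omega)]; push_cast; ring
        rw [c3] at hi
        push_cast
        rw [c1, c2]
        have hWp : (W.card : ℝ) ≤ (p : ℝ) + 1 := by exact_mod_cast (hWn.le.trans hn)
        have h1 := mul_le_mul_of_nonneg_left hi (by linarith : 0 ≤ (p : ℝ) + 1 - W.card)
        refine h1.trans (le_of_eq ?_)
        field_simp
        ring
    · by_cases hsimp : ∃ v ∈ W \ K, Clq G (Nb G W v)
      · obtain ⟨v, hvM, hs⟩ := hsimp
        have hvM' := Finset.mem_sdiff.1 hvM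
        have hpos : 0 < W.card := Finset.card_pos.2 ⟨v, hvM'.1⟩
        have hKe : K ⊆ W.erase v := by
          intro x hx
          rw [Finset.mem_erase]
          refine ⟨?_, hK hx⟩
          rintro rfl
          exact hvM'.2 hx
        have hi := ih (W.erase v).card (by rw [Finset.card_erase_of_mem hvM'.1]; omega)
          (W.erase v) K rfl hKe hKc (by rw [Finset.card_erase_of_mem hvM'.1]; omega)
        have hcd : (W \ K).card = ((W.erase v) \ K).card + 1 := by
          have : (W.erase v) \ K = (W \ K).erase v := by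
            ext x; simp only [Finset.mem_sdiff, Finset.mem_erase]; tauto
          rw [this, Finset.card_erase_of_mem hvM]
          have := Finset.card_pos.2 hM
          omega
        have hdle : (Nb G W v).card ≤ W.card - 1 := by
          rw [← Finset.card_erase_of_mem hvM'.1]
          refine Finset.card_le_card ?_
          intro i hi
          rw [mem_Nb] at hi
          exact Finset.mem_erase.2 ⟨hi.2.ne', hi.1⟩
        rw [cnt_simplicial G p W v hvM'.1 hs, cnt_simplicial G (p + 1) W v hvM'.1 hs, hcd, pow_succ]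
        have c1 : ((p - (Nb G W v).card : ℕ) : ℝ) = (p : ℝ) - (Nb G W v).card := by
          rw [Nat.cast_sub (by omega)]
        have c2 : ((p + 1 - (Nb G W v).card : ℕ) : ℝ) = (p : ℝ) + 1 - (Nb G W v).card := by
          rw [Nat.cast_sub (by omega)]; push_cast; ring
        push_cast
        rw [c1, c2]
        set d : ℝ := ((Nb G W v).card : ℝ) with hd
        have hd0 : 0 ≤ d := Nat.cast_nonneg _
        have hdp : d ≤ p := by
          rw [hd]; exact_mod_cast (by omega : (Nb G W v).card ≤ p)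
        have h1 := mul_le_mul_of_nonneg_left hi (by linarith : 0 ≤ (p : ℝ) - d)
        refine h1.trans ?_
        have h2 : (p : ℝ) - d ≤ (1 - 1 / ((p : ℝ) + 1)) * ((p : ℝ) + 1 - d) := by
          have e : (1 - 1 / ((p : ℝ) + 1)) * ((p : ℝ) + 1 - d) = (p : ℝ) - d + d / ((p : ℝ) + 1) := by
            field_simp
            ring
          rw [e]
          have : 0 ≤ d / ((p : ℝ) + 1) := by positivity
          linarith
        have hkp : (K.card : ℝ) ≤ (p : ℝ) + 1 := by
          have := Finset.card_le_card hK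
          exact_mod_cast (by omega : K.card ≤ p + 1)
        have h3 : 0 ≤ (1 - (K.card : ℝ) / ((p : ℝ) + 1))
            * (1 - 1 / ((p : ℝ) + 1)) ^ ((W.erase v) \ K).card * cnt G (p + 1) (W.erase v) := by
          refine mul_nonneg (mul_nonneg ?_ (pow_nonneg ?_ _)) (Nat.cast_nonneg _)
          · have : (K.card : ℝ) / ((p : ℝ) + 1) ≤ 1 := by rw [div_le_one hQ0]; exact hkp
            linarith
          · have : 1 / ((p : ℝ) + 1) ≤ 1 := by
              rw [div_le_one hQ0]
              have : (0 : ℝ) ≤ p := Nat.cast_nonneg _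
              linarith
            linarith
        have h4 := mul_le_mul_of_nonneg_right h2 h3
        refine h4.trans (le_of_eq ?_)
        ring
      · push Not at hsimp
        have hnb : ∀ j ∈ W \ K, ∃ i ∈ W \ K, G.Adj j i := by
          intro j hj
          by_contra hcon
          push Not at hcon
          apply hsimp j hj
          intro a ha b hb hab
          rw [mem_Nb] at ha hb
          have ha' : a ∈ K := by
            by_contra h
            exact hcon a (Finset.mem_sdiff.2 ⟨ha.1, h⟩) ha.2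
          have hb' : b ∈ K := by
            by_contra h
            exact hcon b (Finset.mem_sdiff.2 ⟨hb.1, h⟩) hb.2
          exact hKc a ha' b hb' hab
        obtain ⟨j, hj⟩ := hM
        obtain ⟨i, hi, hij⟩ := hnb j hj
        have h2 : 1 < (W \ K).card := Finset.one_lt_card.2 ⟨j, hj, i, hi, hij.ne⟩
        have h3 : (W \ K).card ≤ W.card := Finset.card_le_card Finset.sdiff_subset
        have hp : 1 ≤ p := by omega
        refine ratio_step G hp (by omega) ⟨j, (Finset.mem_sdiff.1 hj).1⟩ hK hKc hnb ⟨j, hj⟩ ?_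
        intro T hT hT0
        rw [mem_I] at hT
        have hlt : (W \ T).card < n := by
          rw [← hWn, Finset.card_sdiff_of_subset hT.1]
          have := Finset.card_pos.2 (Finset.nonempty_iff_ne_empty.2 hT0)
          have := Finset.card_le_card hT.1
          omega
        exact ih (W \ T).card hlt (W \ T) (K \ T) rfl (Finset.sdiff_subset_sdiff hK (Finset.Subset.refl T))
          (fun a ha b hb hab => hKc a (Finset.mem_sdiff.1 ha).1 b (Finset.mem_sdiff.1 hb).1 hab)
          (by omega)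

end Pool.Agent.H862R2.Chrom
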