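import Pool.Agent.H862R2.ChromCount

set_option autoImplicit false
set_option linter.unusedSectionVars false

/-!
Colour classes of proper colourings, and resampling of one vertex.
-/

namespace Pool.Agent.H862R2.Chrom

open Finset

universe u

variable {V : Type u} [DecidableEq V] [Fintype V] (G : SimpleGraph V)

/-- the class of colour `a` -/
def cls (c : V → ℕ) (a : ℕ) : Finset V := univ.filter (fun v => c v = a)

theorem mem_cls {c : V → ℕ} {a : ℕ} {v : V} : v ∈ cls c a ↔ c v = a := by simp [cls]

theorem cls_mem_I {k : ℕ} {W : Finset V} {c : V → ℕ} (hc : c ∈ F G k W) {a : ℕ} (ha : a ≠ 0) :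
    cls c a ∈ I G W := by
  rw [mem_F] at hc
  obtain ⟨h1, h2, h3⟩ := hc
  rw [mem_I]
  constructor
  · intro v hv
    rw [mem_cls] at hv
    rw [← h2 v, hv]; exact ha
  · intro v hv w hw hvw
    rw [mem_cls] at hv hw
    exact h3 v w hvw (by rw [hv]; exact ha) (by rw [hv, hw])

theorem card_fiber (k : ℕ) (W T : Finset V) (hT : T ∈ I G W) :
    ((F G (k + 1) W).filter (fun c => cls c (k + 1) = T)).card = (F G k (W \ T)).card := by
  rw [mem_I] at hT
  refine Finset.card_bij' (fun c _ => fun a => if c a = k + 1 then 0 else c a)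
      (fun c _ => fun a => if a ∈ T then k + 1 else c a) ?_ ?_ ?_ ?_
  · intro c hc
    rw [Finset.mem_filter, mem_F] at hc
    obtain ⟨⟨h1, h2, h3⟩, h4⟩ := hc
    have h4' : ∀ a, a ∈ T ↔ c a = k + 1 := fun a => by rw [← h4, mem_cls]
    rw [mem_F]
    refine ⟨fun a => ?_, fun a => ?_, fun a b hab => ?_⟩
    · split_ifs with h
      · omega
      · have := h1 a; omega
    · rw [Finset.mem_sdiff, h4' a, ← h2 a]
      split_ifs with h
      · simp [h]
      · simp [h]
    · have := h3 a b hab
      split_ifs with h h' h'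
      · intro h0; exact absurd rfl h0
      · intro h0; exact absurd rfl h0
      · intro h0; exact h0
      · exact this
  · intro c hc
    rw [mem_F] at hc
    obtain ⟨h1, h2, h3⟩ := hc
    rw [Finset.mem_filter, mem_F]
    refine ⟨⟨fun a => ?_, fun a => ?_, fun a b hab => ?_⟩, ?_⟩
    · split_ifs with h
      · exact le_rfl
      · have := h1 a; omega
    · split_ifs with h
      · simp [hT.1 h]
      · rw [h2 a, Finset.mem_sdiff]
        tauto
    · split_ifs with h h' h'
      · exact absurd hab (hT.2 a h b h')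
      · intro _
        have := h1 b; omega
      · intro _
        have := h1 a; omega
      · exact h3 a b hab
    · ext a
      rw [mem_cls]
      split_ifs with h
      · simp [h]
      · have := h1 a
        simp only [h, iff_false]
        omega
  · intro c hc
    rw [Finset.mem_filter, mem_F] at hc
    obtain ⟨⟨h1, h2, h3⟩, h4⟩ := hc
    have h4' : ∀ a, a ∈ T ↔ c a = k + 1 := fun a => by rw [← h4, mem_cls]
    funext a
    dsimp only
    by_cases h : a ∈ T
    · rw [if_pos h, (h4' a).1 h]
    · rw [if_neg h, if_neg (fun h' => h ((h4' a).2 h'))]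
  · intro c hc
    rw [mem_F] at hc
    obtain ⟨h1, h2, h3⟩ := hc
    funext a
    dsimp only
    by_cases h : a ∈ T
    · simp only [h, if_true]
      by_contra h0
      have := (h2 a).1 (fun h' => h0 h'.symm)
      exact (Finset.mem_sdiff.1 this).2 h
    · have h5 : c a ≠ k + 1 := by have := h1 a; omega
      simp only [h, if_false, h5]

theorem sum_last (k : ℕ) (W : Finset V) (ψ : Finset V → ℝ) :
    ∑ c ∈ F G (k + 1) W, ψ (cls c (k + 1)) = ∑ T ∈ I G W, (cnt G k (W \ T) : ℝ) * ψ T := by
  classical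
  rw [← Finset.sum_fiberwise_of_maps_to (s := F G (k + 1) W) (t := I G W)
    (g := fun c : V → ℕ => cls c (k + 1)) (fun c hc => cls_mem_I G hc (by omega))]
  refine Finset.sum_congr rfl fun T hT => ?_
  have : ∀ c ∈ (F G (k + 1) W).filter (fun c => cls c (k + 1) = T), ψ (cls c (k + 1)) = ψ T := by
    intro c hc
    rw [(Finset.mem_filter.1 hc).2]
  rw [Finset.sum_congr rfl this, Finset.sum_const, card_fiber G k W T hT, card_F, nsmul_eq_mul]

theorem sum_color (k : ℕ) (W : Finset V) (ψ : Finset V → ℝ) (a : ℕ) (ha : a ∈ Finset.Icc 1 (k + 1)) :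
    ∑ c ∈ F G (k + 1) W, ψ (cls c a) = ∑ T ∈ I G W, (cnt G k (W \ T) : ℝ) * ψ T := by
  rw [Finset.mem_Icc] at ha
  rw [← sum_last G k W ψ]
  have hs0 : ∀ x, Equiv.swap a (k + 1) x = 0 ↔ x = 0 := by
    intro x
    obtain ⟨ha1, ha2⟩ := ha
    rw [Equiv.swap_apply_def]
    split_ifs with h1 h2
    · constructor
      · intro h; exact h.elim
      · intro h; omega
    · constructor
      · intro h; omega
      · intro h; omega
    · exact Iff.rfl
  have hsle : ∀ x, x ≤ k + 1 → Equiv.swap a (k + 1) x ≤ k + 1 := by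
    intro x hx
    rw [Equiv.swap_apply_def]
    split_ifs with h1 h2 <;> omega
  have hmem : ∀ c ∈ F G (k + 1) W, (fun v => Equiv.swap a (k + 1) (c v)) ∈ F G (k + 1) W := by
    intro c hc
    rw [mem_F] at hc ⊢
    obtain ⟨h1, h2, h3⟩ := hc
    refine ⟨fun v => hsle _ (h1 v), fun v => ?_, fun v w hvw h0 h => ?_⟩
    · rw [← h2 v, not_iff_not]
      exact hs0 _
    · have h0' : c v ≠ 0 := fun h' => h0 ((hs0 _).2 h')
      exact h3 v w hvw h0' ((Equiv.swap a (k + 1)).injective h)
  refine Finset.sum_nbij' (fun c v => Equiv.swap a (k + 1) (c v))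
    (fun c v => Equiv.swap a (k + 1) (c v)) hmem hmem ?_ ?_ ?_
  · intro c _; funext v; simp
  · intro c _; funext v; simp
  · intro c _
    congr 1
    ext v
    rw [mem_cls, mem_cls]
    constructor
    · intro h; rw [h]; exact Equiv.swap_apply_left _ _
    · intro h
      have := congrArg (Equiv.swap a (k + 1)) h
      rwa [Equiv.swap_apply_self, Equiv.swap_apply_right] at this

theorem sum_classes (k : ℕ) (W : Finset V) (ψ : Finset V → ℝ) :
    ∑ c ∈ F G (k + 1) W, ∑ a ∈ Finset.Icc 1 (k + 1), ψ (cls c a)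
      = (k + 1) * ∑ T ∈ I G W, (cnt G k (W \ T) : ℝ) * ψ T := by
  rw [Finset.sum_comm, Finset.sum_congr rfl (fun a ha => sum_color G k W ψ a ha),
    Finset.sum_const, Nat.card_Icc, nsmul_eq_mul]
  push_cast
  simp

open scoped Classical in
/-- neighbours of `j` in `W` -/
noncomputable def Nb (W : Finset V) (j : V) : Finset V := W.filter (fun i => G.Adj j i)

theorem mem_Nb {W : Finset V} {j i : V} : i ∈ Nb G W j ↔ i ∈ W ∧ G.Adj j i := by simp [Nb]

/-- colours on the neighbours -/
noncomputable def cols (W : Finset V) (j : V) (c : V → ℕ) : Finset ℕ := (Nb G W j).image c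

/-- colours available for `j` -/
noncomputable def Av (q : ℕ) (W : Finset V) (j : V) (c : V → ℕ) : Finset ℕ :=
  Finset.Icc 1 q \ cols G W j c

theorem cols_update (W : Finset V) (j : V) (c : V → ℕ) (a : ℕ) :
    cols G W j (Function.update c j a) = cols G W j c := by
  unfold cols
  refine Finset.image_congr fun i hi => ?_
  have hi' := (mem_Nb G).1 (Finset.mem_coe.1 hi)
  refine Function.update_of_ne (fun h => ?_) _ _
  rw [h] at hi'
  exact G.loopless.irrefl _ hi'.2

theorem Av_update (q : ℕ) (W : Finset V) (j : V) (c : V → ℕ) (a : ℕ) :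
    Av G q W j (Function.update c j a) = Av G q W j c := by
  unfold Av; rw [cols_update]

theorem self_mem_Av {q : ℕ} {W : Finset V} {j : V} {c : V → ℕ} (hj : j ∈ W) (hc : c ∈ F G q W) :
    c j ∈ Av G q W j c := by
  rw [mem_F] at hc
  obtain ⟨h1, h2, h3⟩ := hc
  rw [Av, Finset.mem_sdiff, Finset.mem_Icc]
  have h0 := (h2 j).2 hj
  refine ⟨⟨by omega, h1 j⟩, fun h => ?_⟩
  rw [cols, Finset.mem_image] at h
  obtain ⟨i, hi, hij⟩ := h
  exact h3 j i ((mem_Nb G).1 hi).2 h0 hij.symm

theorem update_mem_F {q : ℕ} {W : Finset V} {j : V} {c : V → ℕ} (hj : j ∈ W) (hc : c ∈ F G q W)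
    {a : ℕ} (ha : a ∈ Av G q W j c) : Function.update c j a ∈ F G q W := by
  rw [mem_F] at hc ⊢
  obtain ⟨h1, h2, h3⟩ := hc
  rw [Av, Finset.mem_sdiff, Finset.mem_Icc] at ha
  obtain ⟨⟨ha1, haq⟩, hac⟩ := ha
  refine ⟨fun x => ?_, fun x => ?_, fun x y hxy => ?_⟩
  · by_cases h : x = j
    · subst h; rw [Function.update_self]; exact haq
    · rw [Function.update_of_ne h]; exact h1 x
  · by_cases h : x = j
    · subst h; rw [Function.update_self]
      exact ⟨fun _ => hj, fun _ => by omega⟩
    · rw [Function.update_of_ne h]; exact h2 x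
  · by_cases hx : x = j
    · subst hx
      have hy : y ≠ x := fun h => G.loopless.irrefl x (h ▸ hxy)
      rw [Function.update_self, Function.update_of_ne hy]
      intro _ h
      by_cases hyW : y ∈ W
      · exact hac (Finset.mem_image.2 ⟨y, (mem_Nb G).2 ⟨hyW, hxy⟩, h.symm⟩)
      · have : c y = 0 := by
          by_contra h0
          exact hyW ((h2 y).1 h0)
        omega
    · rw [Function.update_of_ne hx]
      by_cases hy : y = j
      · subst hy
        rw [Function.update_self]
        intro h0 h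
        have hxW := (h2 x).1 h0
        exact hac (Finset.mem_image.2 ⟨x, (mem_Nb G).2 ⟨hxW, hxy.symm⟩, h⟩)
      · rw [Function.update_of_ne hy]
        exact h3 x y hxy

/-- resampling the colour of `j` -/
theorem resample (q : ℕ) (W : Finset V) (j : V) (hj : j ∈ W) (g : (V → ℕ) → ℝ) :
    ∑ c ∈ F G q W, g c
      = ∑ c ∈ F G q W, (∑ a ∈ Av G q W j c, g (Function.update c j a)) / (Av G q W j c).card := by
  have h1 : ∑ c ∈ F G q W, (∑ a ∈ Av G q W j c, g (Function.update c j a)) / (Av G q W j c).card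
      = ∑ x ∈ (F G q W).sigma (fun c => Av G q W j c),
          g (Function.update x.1 j x.2) / (Av G q W j x.1).card := by
    rw [Finset.sum_sigma]
    refine Finset.sum_congr rfl fun c _ => ?_
    rw [Finset.sum_div]
  have h2 : ∑ c ∈ F G q W, g c
      = ∑ x ∈ (F G q W).sigma (fun c => Av G q W j c), g x.1 / (Av G q W j x.1).card := by
    rw [Finset.sum_sigma]
    refine Finset.sum_congr rfl fun c hc => ?_
    dsimp only
    rw [Finset.sum_const, nsmul_eq_mul]
    have : ((Av G q W j c).card : ℝ) ≠ 0 := by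
      have : 0 < (Av G q W j c).card := Finset.card_pos.2 ⟨_, self_mem_Av G hj hc⟩
      exact_mod_cast this.ne'
    field_simp
  rw [h1, h2]
  refine Finset.sum_nbij' (fun x => ⟨Function.update x.1 j x.2, x.1 j⟩)
    (fun x => ⟨Function.update x.1 j x.2, x.1 j⟩) ?_ ?_ ?_ ?_ ?_
  · rintro ⟨c, a⟩ hx
    rw [Finset.mem_sigma] at hx ⊢
    refine ⟨update_mem_F G hj hx.1 hx.2, ?_⟩
    dsimp only
    rw [Av_update]
    exact self_mem_Av G hj hx.1
  · rintro ⟨c, a⟩ hx
    rw [Finset.mem_sigma] at hx ⊢
    refine ⟨update_mem_F G hj hx.1 hx.2, ?_⟩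
    dsimp only
    rw [Av_update]
    exact self_mem_Av G hj hx.1
  · rintro ⟨c, a⟩ _
    simp
  · rintro ⟨c, a⟩ _
    simp
  · rintro ⟨c, a⟩ _
    dsimp only
    rw [Function.update_idem, Function.update_eq_self, Av_update]

/-- number of other vertices of `W` with the colour of `j` -/
def Yc (W : Finset V) (j : V) (c : V → ℕ) : ℕ := ((W.erase j).filter (fun l => c l = c j)).card

theorem sum_Yc_update (q : ℕ) (W : Finset V) (j : V) (c : V → ℕ) :
    ∑ a ∈ Av G q W j c, (Yc W j (Function.update c j a) : ℝ)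
      = (((W.erase j).filter (fun l => c l ∈ Av G q W j c)).card : ℝ) := by
  have hm : ∀ l ∈ (W.erase j).filter (fun l => c l ∈ Av G q W j c), c l ∈ Av G q W j c :=
    fun l hl => (Finset.mem_filter.1 hl).2
  rw [Finset.card_eq_sum_card_fiberwise (f := c)
    (s := (W.erase j).filter (fun l => c l ∈ Av G q W j c)) (t := Av G q W j c) hm]
  push_cast
  refine Finset.sum_congr rfl fun a ha => ?_
  unfold Yc
  rw [Finset.filter_filter]
  congr 2
  refine Finset.filter_congr fun l hl => ?_
  rw [Function.update_self, Function.update_of_ne (Finset.ne_of_mem_erase hl)]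
  constructor
  · intro h; exact ⟨by rw [h]; exact ha, h⟩
  · exact fun h => h.2

end Pool.Agent.H862R2.Chrom
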