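import Mathlib
import Pool.Agent.H295R2.Nic.Defs
import Pool.Agent.Helper923.PNT

set_option autoImplicit false

open MeasureTheory Filter Topology Set

/-!
# Counting the exceptions to Robin's inequality: the integers `n_A`

For a set `A` of primes in `(y/2, y]` let `n_A = lcm(1..y) / ∏_{p ∈ A} p`.
-/

namespace Pool.Agent.H862R2.Rob

open Pool.Agent.H295R2.Nic

noncomputable section

/-- the primes up to `y` -/
def PR (y : ℝ) : Finset ℕ := (Finset.Icc 1 ⌊y⌋₊).filter Nat.Prime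

/-- the exponent of `p` in `lcm(1..y)` -/
def bb (y : ℝ) (p : ℕ) : ℕ := Nat.log p ⌊y⌋₊

/-- `n_A` -/
def nA (y : ℝ) (A : Finset ℕ) : ℕ := ∏ p ∈ PR y \ A, p ^ bb y p

theorem mem_PR {y : ℝ} {p : ℕ} : p ∈ PR y ↔ p.Prime ∧ p ≤ ⌊y⌋₊ := by
  unfold PR
  rw [Finset.mem_filter, Finset.mem_Icc]
  constructor
  · rintro ⟨⟨_, h⟩, hp⟩; exact ⟨hp, h⟩
  · rintro ⟨hp, h⟩; exact ⟨⟨hp.one_le, h⟩, hp⟩

theorem PR_eq (y : ℝ) : PR y = Nat.primesLE ⌊y⌋₊ := by
  ext p
  rw [mem_PR, Nat.mem_primesLE]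
  exact and_comm

theorem theta_PR (y : ℝ) : Chebyshev.theta y = ∑ p ∈ PR y, Real.log p := by
  rw [PR_eq, Chebyshev.theta_eq_sum_primesLE]

theorem psi_PR (y : ℝ) : Chebyshev.psi y = ∑ p ∈ PR y, (bb y p : ℝ) * Real.log p := by
  rw [PR_eq, Chebyshev.psi_eq_psi_coe_floor, Chebyshev.psi_eq_sum_mul_log_prime]
  rfl

theorem bb_pos {y : ℝ} {p : ℕ} (hp : p ∈ PR y) : 1 ≤ bb y p := by
  rw [mem_PR] at hp
  exact Nat.log_pos hp.1.one_lt hp.2

theorem bb_lt {y : ℝ} {p : ℕ} (hp : p.Prime) : y < (p : ℝ) ^ (bb y p + 1) := by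
  have h1 : ⌊y⌋₊ < p ^ (bb y p + 1) := Nat.lt_pow_succ_log_self hp.one_lt _
  have h2 : y < ⌊y⌋₊ + 1 := Nat.lt_floor_add_one y
  have h3 : ((⌊y⌋₊ + 1 : ℕ) : ℝ) ≤ ((p ^ (bb y p + 1) : ℕ) : ℝ) := by exact_mod_cast h1
  push_cast at h3
  linarith

theorem bb_one {y : ℝ} {p : ℕ} (hy : 4 ≤ y) (hp : p ∈ PR y) (h : y / 2 < p) : bb y p = 1 := by
  have h1 := bb_pos hp
  have h2 : bb y p < 2 := by
    apply Nat.log_lt_of_lt_pow
    · have := (mem_PR.mp hp).1.pos
      have := (mem_PR.mp hp).2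
      omega
    · have h3 : (⌊y⌋₊ : ℝ) ≤ y := Nat.floor_le (by linarith)
      have h4 : (⌊y⌋₊ : ℝ) < ((p ^ 2 : ℕ) : ℝ) := by
        push_cast
        nlinarith
      exact_mod_cast h4
  omega

theorem nA_pos (y : ℝ) (A : Finset ℕ) : 0 < nA y A := by
  apply Finset.prod_pos
  intro p hp
  exact pow_pos (mem_PR.mp (Finset.mem_sdiff.mp hp).1).1.pos _

theorem log_nA {y : ℝ} (hy : 4 ≤ y) {A : Finset ℕ} (hA : A ⊆ PR y) (hA2 : ∀ p ∈ A, y / 2 < (p : ℝ)) :
    Real.log (nA y A) = Chebyshev.psi y - ∑ p ∈ A, Real.log p := by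
  unfold nA
  push_cast
  rw [Real.log_prod]
  · have h1 : ∀ p ∈ PR y \ A, Real.log ((p : ℝ) ^ bb y p) = (bb y p : ℝ) * Real.log p := by
      intro p _
      rw [Real.log_pow]
    rw [Finset.sum_congr rfl h1, psi_PR, ← Finset.sum_sdiff hA]
    have h2 : ∑ p ∈ A, (bb y p : ℝ) * Real.log p = ∑ p ∈ A, Real.log p := by
      apply Finset.sum_congr rfl
      intro p hp
      rw [bb_one hy (hA hp) (hA2 p hp)]
      simp
    rw [h2]; ring
  · intro p hp
    have := (mem_PR.mp (Finset.mem_sdiff.mp hp).1).1.pos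
    positivity

/-- `σ(p^b)/p^b` -/
theorem sigma_pp {p : ℕ} (hp : p.Prime) (b : ℕ) :
    (ArithmeticFunction.sigma 1 (p ^ b) : ℝ) / ((p ^ b : ℕ) : ℝ)
      = (1 - 1 / (p : ℝ) ^ (b + 1)) / (1 - 1 / (p : ℝ)) := by
  have hp1 : (1 : ℝ) < p := by exact_mod_cast hp.one_lt
  have hp0 : (0 : ℝ) < p := by linarith
  rw [ArithmeticFunction.sigma_one_apply_prime_pow hp]
  push_cast
  rw [geom_sum_eq (by linarith)]
  have h1 : (1 : ℝ) - 1 / (p : ℝ) ≠ 0 := by
    have : 1 / (p : ℝ) < 1 := by rw [div_lt_one hp0]; exact hp1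
    linarith
  have h2 : (p : ℝ) - 1 ≠ 0 := by linarith
  rw [div_div, div_eq_div_iff (by positivity) h1]
  · field_simp
    ring

theorem log_sigma (y : ℝ) (A : Finset ℕ) :
    Real.log ((ArithmeticFunction.sigma 1 (nA y A) : ℝ) / (nA y A : ℝ))
      = ∑ p ∈ PR y \ A, (Real.log (1 - 1 / (p : ℝ) ^ (bb y p + 1)) - Real.log (1 - 1 / (p : ℝ))) := by
  have h1 : (ArithmeticFunction.sigma 1 (nA y A) : ℝ) / (nA y A : ℝ)
      = ∏ p ∈ PR y \ A, ((1 - 1 / (p : ℝ) ^ (bb y p + 1)) / (1 - 1 / (p : ℝ))) := by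
    have h2 : ArithmeticFunction.sigma 1 (nA y A) = ∏ p ∈ PR y \ A,
        ArithmeticFunction.sigma 1 (p ^ bb y p) := by
      apply ArithmeticFunction.IsMultiplicative.map_prod _
        ArithmeticFunction.isMultiplicative_sigma
      intro p hp q hq hpq
      have hp' := (mem_PR.mp (Finset.mem_sdiff.mp (Finset.mem_coe.mp hp)).1).1
      have hq' := (mem_PR.mp (Finset.mem_sdiff.mp (Finset.mem_coe.mp hq)).1).1
      exact Nat.Coprime.pow _ _ ((Nat.coprime_primes hp' hq').mpr hpq)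
    rw [h2]
    unfold nA
    rw [Nat.cast_prod, Nat.cast_prod, ← Finset.prod_div_distrib]
    apply Finset.prod_congr rfl
    intro p hp
    exact sigma_pp (mem_PR.mp (Finset.mem_sdiff.mp hp).1).1 _
  rw [h1, Real.log_prod]
  · apply Finset.sum_congr rfl
    intro p hp
    have hp' := (mem_PR.mp (Finset.mem_sdiff.mp hp).1).1
    have hp1 : (1 : ℝ) < p := by exact_mod_cast hp'.one_lt
    have h3 : (1 : ℝ) < (p : ℝ) ^ (bb y p + 1) := one_lt_pow₀ hp1 (by omega)
    rw [Real.log_div]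
    · have : 1 / (p : ℝ) ^ (bb y p + 1) < 1 := by rw [div_lt_one (by linarith)]; exact h3
      linarith
    · have : 1 / (p : ℝ) < 1 := by rw [div_lt_one (by linarith)]; exact hp1
      linarith
  · intro p hp
    have hp' := (mem_PR.mp (Finset.mem_sdiff.mp hp).1).1
    have hp1 : (1 : ℝ) < p := by exact_mod_cast hp'.one_lt
    have h3 : (1 : ℝ) < (p : ℝ) ^ (bb y p + 1) := one_lt_pow₀ hp1 (by omega)
    have h4 : 1 / (p : ℝ) ^ (bb y p + 1) < 1 := by rw [div_lt_one (by linarith)]; exact h3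
    have h5 : 1 / (p : ℝ) < 1 := by rw [div_lt_one (by linarith)]; exact hp1
    exact div_ne_zero (by linarith) (by linarith)

theorem log_one_sub_ge {q : ℝ} (h0 : 0 ≤ q) (h : q ≤ 1 / 2) : -(2 * q) ≤ Real.log (1 - q) := by
  have h1 : 0 < 1 - q := by linarith
  have h2 := Real.one_sub_inv_le_log_of_pos h1
  have h3 : (1 - q)⁻¹ ≤ 1 + 2 * q := by
    rw [inv_le_iff_one_le_mul₀ h1]
    nlinarith
  linarith

/-- the loss from the finite exponents -/
theorem loss {y : ℝ} (hy : 4 ≤ y) :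
    -(6 / Real.sqrt y) ≤ ∑ p ∈ PR y, Real.log (1 - 1 / (p : ℝ) ^ (bb y p + 1)) := by
  have hs2 : 2 ≤ Real.sqrt y := by
    rw [show (2 : ℝ) = Real.sqrt 4 by
      rw [show (4 : ℝ) = 2 ^ 2 by norm_num, Real.sqrt_sq (by norm_num)]]
    exact Real.sqrt_le_sqrt hy
  have hs0 : 0 < Real.sqrt y := by linarith
  have hss : Real.sqrt y * Real.sqrt y = y := Real.mul_self_sqrt (by linarith)
  set M := ⌊Real.sqrt y⌋₊ with hM
  have hM1 : (M : ℝ) ≤ Real.sqrt y := Nat.floor_le hs0.le
  have hM2 : Real.sqrt y < M + 1 := Nat.lt_floor_add_one _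
  have hM0 : 2 ≤ M := Nat.le_floor (by exact_mod_cast hs2)
  -- the bound for one term
  have h1 : ∀ p ∈ PR y, -(2 * (if p ≤ M then 1 / y else ((p : ℝ) ^ 2)⁻¹))
      ≤ Real.log (1 - 1 / (p : ℝ) ^ (bb y p + 1)) := by
    intro p hp
    have hp' := (mem_PR.mp hp).1
    have hp2 : (2 : ℝ) ≤ p := by exact_mod_cast hp'.two_le
    have hb := bb_pos hp
    have h4 : (4 : ℝ) ≤ (p : ℝ) ^ 2 := by nlinarith
    have h5 : (p : ℝ) ^ 2 ≤ (p : ℝ) ^ (bb y p + 1) := pow_le_pow_right₀ (by linarith) (by omega)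
    have h6 : 0 ≤ 1 / (p : ℝ) ^ (bb y p + 1) := by positivity
    have h7 : 1 / (p : ℝ) ^ (bb y p + 1) ≤ 1 / 2 := by
      apply one_div_le_one_div_of_le (by norm_num)
      linarith
    refine le_trans ?_ (log_one_sub_ge h6 h7)
    apply neg_le_neg
    apply mul_le_mul_of_nonneg_left _ (by norm_num)
    split_ifs with hpM
    · exact one_div_le_one_div_of_le (by linarith) (bb_lt hp').le
    · rw [← one_div]
      exact one_div_le_one_div_of_le (by positivity) h5
  refine le_trans ?_ (Finset.sum_le_sum h1)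
  rw [Finset.sum_neg_distrib, ← Finset.mul_sum]
  apply neg_le_neg
  -- the sum over all integers
  have h2 : ∑ p ∈ PR y, (if p ≤ M then 1 / y else ((p : ℝ) ^ 2)⁻¹)
      ≤ ∑ p ∈ Finset.Icc 1 ⌊y⌋₊, (if p ≤ M then 1 / y else ((p : ℝ) ^ 2)⁻¹) := by
    apply Finset.sum_le_sum_of_subset_of_nonneg (Finset.filter_subset _ _)
    intro i _ _
    split_ifs
    · positivity
    · positivity
  have h3 : ∑ p ∈ Finset.Icc 1 ⌊y⌋₊, (if p ≤ M then 1 / y else ((p : ℝ) ^ 2)⁻¹)
      ≤ 3 / Real.sqrt y := by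
    rw [Finset.sum_ite]
    have h4 : ∑ x ∈ (Finset.Icc 1 ⌊y⌋₊).filter (fun p => p ≤ M), 1 / y ≤ 1 / Real.sqrt y := by
      rw [Finset.sum_const, nsmul_eq_mul]
      have h5 : (((Finset.Icc 1 ⌊y⌋₊).filter (fun p => p ≤ M)).card : ℝ) ≤ M := by
        have : ((Finset.Icc 1 ⌊y⌋₊).filter (fun p => p ≤ M)).card ≤ (Finset.Icc 1 M).card := by
          apply Finset.card_le_card
          intro i hi
          rw [Finset.mem_filter, Finset.mem_Icc] at hi
          rw [Finset.mem_Icc]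
          exact ⟨hi.1.1, hi.2⟩
        rw [Nat.card_Icc] at this
        exact_mod_cast this
      calc _ ≤ (Real.sqrt y) * (1 / y) :=
            mul_le_mul_of_nonneg_right (h5.trans hM1) (by positivity)
        _ = 1 / Real.sqrt y := by
            nth_rewrite 2 [← hss]
            field_simp
    have h6 : ∑ x ∈ (Finset.Icc 1 ⌊y⌋₊).filter (fun p => ¬ p ≤ M), ((x : ℝ) ^ 2)⁻¹
        ≤ 2 / Real.sqrt y := by
      have h7 : (Finset.Icc 1 ⌊y⌋₊).filter (fun p => ¬ p ≤ M) = Finset.Ioc M ⌊y⌋₊ := by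
        ext i
        rw [Finset.mem_filter, Finset.mem_Icc, Finset.mem_Ioc]
        constructor
        · rintro ⟨⟨_, h⟩, h'⟩; exact ⟨not_le.mp h', h⟩
        · rintro ⟨h, h'⟩; exact ⟨⟨by omega, h'⟩, not_le.mpr h⟩
      rw [h7]
      have h8 : M ≤ ⌊y⌋₊ := by
        apply Nat.floor_le_floor
        nlinarith
      have h9 := sum_Ioc_inv_sq_le_sub (α := ℝ) (k := M) (n := ⌊y⌋₊) (by omega) h8
      have h10 : (0 : ℝ) ≤ (⌊y⌋₊ : ℝ)⁻¹ := by positivity
      have h11 : (M : ℝ)⁻¹ ≤ 2 / Real.sqrt y := by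
        have hM0' : (2 : ℝ) ≤ M := by exact_mod_cast hM0
        rw [inv_eq_one_div, div_le_div_iff₀ (by linarith) hs0]
        linarith
      linarith
    calc _ ≤ 1 / Real.sqrt y + 2 / Real.sqrt y := add_le_add h4 h6
      _ = 3 / Real.sqrt y := by ring
  calc 2 * ∑ p ∈ PR y, (if p ≤ M then 1 / y else ((p : ℝ) ^ 2)⁻¹)
      ≤ 2 * (3 / Real.sqrt y) := mul_le_mul_of_nonneg_left (h2.trans h3) (by norm_num)
    _ = 6 / Real.sqrt y := by ring

theorem log_sigma_ge {y : ℝ} (hy : 4 ≤ y) {A : Finset ℕ} (hA : A ⊆ PR y) :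
    MP y - ∑ p ∈ A, -Real.log (1 - 1 / (p : ℝ)) - 6 / Real.sqrt y
      ≤ Real.log ((ArithmeticFunction.sigma 1 (nA y A) : ℝ) / (nA y A : ℝ)) := by
  rw [log_sigma]
  have h1 : MP y = ∑ p ∈ PR y, -Real.log (1 - 1 / (p : ℝ)) := rfl
  have h2 := loss hy
  rw [h1, ← Finset.sum_sdiff hA]
  have h3 : ∑ p ∈ PR y, Real.log (1 - 1 / (p : ℝ) ^ (bb y p + 1))
      ≤ ∑ p ∈ PR y \ A, Real.log (1 - 1 / (p : ℝ) ^ (bb y p + 1)) := by
    rw [← Finset.sum_sdiff hA]
    have : ∑ p ∈ A, Real.log (1 - 1 / (p : ℝ) ^ (bb y p + 1)) ≤ 0 := by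
      apply Finset.sum_nonpos
      intro p hp
      have hp' := (mem_PR.mp (hA hp)).1
      have hp1 : (1 : ℝ) < p := by exact_mod_cast hp'.one_lt
      have h3 : (1 : ℝ) < (p : ℝ) ^ (bb y p + 1) := one_lt_pow₀ hp1 (by omega)
      have h4 : 1 / (p : ℝ) ^ (bb y p + 1) < 1 := by rw [div_lt_one (by linarith)]; exact h3
      apply Real.log_nonpos
      · linarith
      · have : 0 < 1 / (p : ℝ) ^ (bb y p + 1) := by positivity
        linarith
    linarith
  have h4 : ∑ p ∈ PR y \ A, (Real.log (1 - 1 / (p : ℝ) ^ (bb y p + 1)) - Real.log (1 - 1 / (p : ℝ)))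
      = ∑ p ∈ PR y \ A, Real.log (1 - 1 / (p : ℝ) ^ (bb y p + 1))
        + ∑ p ∈ PR y \ A, -Real.log (1 - 1 / (p : ℝ)) := by
    rw [← Finset.sum_add_distrib]
    apply Finset.sum_congr rfl
    intro p _
    ring
  rw [h4]
  linarith

/-- tangent line of `log log` -/
theorem loglog_le {a x : ℝ} (ha : 1 < a) (hx : 1 < x) :
    Real.log (Real.log x) ≤ Real.log (Real.log a) + (x - a) / (a * Real.log a) := by
  have ha0 : 0 < a := by linarith
  have hx0 : 0 < x := by linarith
  have hla : 0 < Real.log a := Real.log_pos ha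
  have hlx : 0 < Real.log x := Real.log_pos hx
  have h1 : Real.log x ≤ Real.log a + (x - a) / a := by
    have h := Real.log_le_sub_one_of_pos (show 0 < x / a by positivity)
    rw [Real.log_div hx0.ne' ha0.ne'] at h
    have h' : x / a - 1 = (x - a) / a := by field_simp
    linarith
  have h2 : Real.log (Real.log x) ≤ Real.log (Real.log a) + (Real.log x - Real.log a) / Real.log a := by
    have h := Real.log_le_sub_one_of_pos (show 0 < Real.log x / Real.log a by positivity)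
    rw [Real.log_div hlx.ne' hla.ne'] at h
    have h' : Real.log x / Real.log a - 1 = (Real.log x - Real.log a) / Real.log a := by field_simp
    linarith
  have h3 : (Real.log x - Real.log a) / Real.log a ≤ ((x - a) / a) / Real.log a := by
    apply div_le_div_of_nonneg_right _ hla.le
    linarith
  rw [div_div] at h3
  linarith

/-- the criterion for `n_A ∈ NearR y` -/
theorem mem_NearR {y : ℝ} (hy : 4 ≤ y) {A : Finset ℕ} (hA : A ⊆ PR y)
    (hA2 : ∀ p ∈ A, y / 2 < (p : ℝ)) (hT : 3 / 5 * y ≤ Chebyshev.theta y)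
    (hP : Chebyshev.psi y ≤ 2 * y) (hAl : ∑ p ∈ A, Real.log p ≤ y / 10)
    (hf : ∑ p ∈ A, (-Real.log (1 - 1 / (p : ℝ))
      - Real.log p / (Chebyshev.theta y * Real.log (Chebyshev.theta y))) + 14 / Real.sqrt y
      ≤ fN y) : nA y A ∈ NearR y := by
  have hlog := log_nA hy hA hA2
  have hsig := log_sigma_ge hy hA
  set T := Chebyshev.theta y with hTd
  have hA0 : 0 ≤ ∑ p ∈ A, Real.log p := by
    apply Finset.sum_nonneg
    intro p hp
    apply Real.log_nonneg
    exact_mod_cast (mem_PR.mp (hA hp)).1.one_le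
  have hTP : T ≤ Chebyshev.psi y := Chebyshev.theta_le_psi y
  have h1 : y / 2 ≤ Real.log (nA y A) := by rw [hlog]; linarith
  refine ⟨h1, by rw [hlog]; linarith, ?_⟩
  have hT1 : 1 < T := by linarith
  have h2 := loglog_le hT1 (show 1 < Real.log (nA y A) by linarith)
  have h3 : Chebyshev.psi y - T ≤ 2 * Real.sqrt y * Real.log y :=
    Chebyshev.psi_sub_theta_le (by linarith)
  have hs2 : 2 ≤ Real.sqrt y := by
    rw [show (2 : ℝ) = Real.sqrt 4 by
      rw [show (4 : ℝ) = 2 ^ 2 by norm_num, Real.sqrt_sq (by norm_num)]]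
    exact Real.sqrt_le_sqrt hy
  have hs0 : 0 < Real.sqrt y := by linarith
  have hss : Real.sqrt y * Real.sqrt y = y := Real.mul_self_sqrt (by linarith)
  have hly : 0 < Real.log y := Real.log_pos (by linarith)
  have hlT : Real.log y / 2 ≤ Real.log T := by
    rw [← Real.log_sqrt (by linarith)]
    apply Real.log_le_log hs0
    nlinarith
  have hTl : y * Real.log y / 4 ≤ T * Real.log T := by
    have : y / 2 * (Real.log y / 2) ≤ T * Real.log T :=
      mul_le_mul (by linarith) hlT (by positivity) (by linarith)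
    linarith
  have hTl0 : 0 < T * Real.log T := by
    have : 0 < y * Real.log y / 4 := by positivity
    linarith
  have h4 : (Chebyshev.psi y - T) / (T * Real.log T) ≤ 8 / Real.sqrt y := by
    rw [div_le_div_iff₀ hTl0 hs0]
    calc (Chebyshev.psi y - T) * Real.sqrt y ≤ (2 * Real.sqrt y * Real.log y) * Real.sqrt y :=
          mul_le_mul_of_nonneg_right h3 hs0.le
      _ = 2 * Real.log y * (Real.sqrt y * Real.sqrt y) := by ring
      _ = 8 * (y * Real.log y / 4) := by rw [hss]; ring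
      _ ≤ 8 * (T * Real.log T) := by linarith
  have h5 : (Real.log (nA y A) - T) / (T * Real.log T)
      = (Chebyshev.psi y - T) / (T * Real.log T) - ∑ p ∈ A, Real.log p / (T * Real.log T) := by
    rw [hlog, ← Finset.sum_div]
    ring
  rw [Finset.sum_sub_distrib] at hf
  have h6 : fN y = MP y - Real.eulerMascheroniConstant - Real.log (Real.log T) := rfl
  rw [h6] at hf
  rw [h5] at h2
  have h7 : 14 / Real.sqrt y = 6 / Real.sqrt y + 8 / Real.sqrt y := by ring
  linarith

/-- `A` is determined by `n_A` -/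
theorem nA_inj {y : ℝ} {A B : Finset ℕ} (hA : A ⊆ PR y) (hB : B ⊆ PR y) (h : nA y A = nA y B) :
    A = B := by
  have key : ∀ C : Finset ℕ, C ⊆ PR y → ∀ p ∈ PR y, (p ∣ nA y C ↔ p ∉ C) := by
    intro C hC p hp
    have hp' := (mem_PR.mp hp).1
    unfold nA
    rw [Prime.dvd_finsetProd_iff hp'.prime]
    constructor
    · rintro ⟨q, hq, hpq⟩ hpC
      have hq' := (mem_PR.mp (Finset.mem_sdiff.mp hq).1).1
      have := (Nat.prime_dvd_prime_iff_eq hp' hq').mp (hp'.dvd_of_dvd_pow hpq)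
      subst this
      exact (Finset.mem_sdiff.mp hq).2 hpC
    · intro hpC
      refine ⟨p, Finset.mem_sdiff.mpr ⟨hp, hpC⟩, dvd_pow_self p ?_⟩
      have := bb_pos hp
      omega
  ext p
  constructor
  · intro hpA
    by_contra hpB
    exact (key A hA p (hA hpA)).mp (h ▸ (key B hB p (hA hpA)).mpr hpB) hpA
  · intro hpB
    by_contra hpA
    exact (key B hB p (hB hpB)).mp (h ▸ (key A hA p (hB hpB)).mpr hpA) hpB

theorem NearR_finite (y : ℝ) : (NearR y).Finite := by
  apply (Set.finite_Iic ⌊Real.exp (2 * y)⌋₊).subset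
  intro n hn
  rw [Set.mem_Iic]
  rcases Nat.eq_zero_or_pos n with h0 | h0
  · omega
  · apply Nat.le_floor
    have h1 : (0 : ℝ) < n := by exact_mod_cast h0
    rw [← Real.log_le_iff_le_exp h1]
    exact hn.2.1

/-- the count -/
theorem count {y E : ℝ} (hy : 4 ≤ y) {A0 : Finset ℕ} (hA : A0 ⊆ PR y)
    (hA2 : ∀ p ∈ A0, y / 2 < (p : ℝ)) (hT : 3 / 5 * y ≤ Chebyshev.theta y)
    (hP : Chebyshev.psi y ≤ 2 * y) (hAl : (A0.card : ℝ) * Real.log y ≤ y / 10) (hE : 0 ≤ E)
    (hf : ∀ p ∈ A0, -Real.log (1 - 1 / (p : ℝ))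
      - Real.log p / (Chebyshev.theta y * Real.log (Chebyshev.theta y)) ≤ E)
    (hfN : (A0.card : ℝ) * E + 14 / Real.sqrt y ≤ fN y) :
    Real.exp ((A0.card : ℝ) * Real.log 2) ≤ ((NearR y).ncard : ℝ) := by
  have h1 : Real.exp ((A0.card : ℝ) * Real.log 2) = ((A0.powerset.card : ℕ) : ℝ) := by
    rw [Finset.card_powerset, mul_comm, Real.exp_mul, Real.exp_log (by norm_num)]
    push_cast
    rw [Real.rpow_natCast]
  rw [h1]
  have h2 : A0.powerset.card ≤ (NearR y).ncard := by
    rw [← Set.ncard_coe_finset]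
    refine Set.ncard_le_ncard_of_injOn (nA y) ?_ ?_ (NearR_finite y)
    · intro A hAA
      have hAs : A ⊆ A0 := Finset.mem_powerset.mp (Finset.mem_coe.mp hAA)
      have hcard : (A.card : ℝ) ≤ A0.card := by exact_mod_cast Finset.card_le_card hAs
      apply mem_NearR hy (hAs.trans hA) (fun p hp => hA2 p (hAs hp)) hT hP
      · calc ∑ p ∈ A, Real.log p ≤ ∑ p ∈ A, Real.log y := by
              apply Finset.sum_le_sum
              intro p hp
              have hp' := mem_PR.mp (hA (hAs hp))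
              apply Real.log_le_log
              · exact_mod_cast hp'.1.pos
              · exact (Nat.cast_le.mpr hp'.2).trans (Nat.floor_le (by linarith))
          _ = A.card * Real.log y := by rw [Finset.sum_const, nsmul_eq_mul]
          _ ≤ A0.card * Real.log y :=
              mul_le_mul_of_nonneg_right hcard (Real.log_nonneg (by linarith))
          _ ≤ y / 10 := hAl
      · refine le_trans ?_ hfN
        apply add_le_add_left
        calc _ ≤ ∑ p ∈ A, E := Finset.sum_le_sum (fun p hp => hf p (hAs hp))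
          _ = A.card * E := by rw [Finset.sum_const, nsmul_eq_mul]
          _ ≤ A0.card * E := mul_le_mul_of_nonneg_right hcard hE
    · intro A hAA B hBB h
      have hAs : A ⊆ A0 := Finset.mem_powerset.mp (Finset.mem_coe.mp hAA)
      have hBs : B ⊆ A0 := Finset.mem_powerset.mp (Finset.mem_coe.mp hBB)
      exact nA_inj (hAs.trans hA) (hBs.trans hA) h
  exact_mod_cast h2

/-- primes in `(z, y]` -/
def Q (z y : ℝ) : Finset ℕ := (PR y).filter (fun p => z < (p : ℝ))

theorem Q_sub (z y : ℝ) : Q z y ⊆ PR y := Finset.filter_subset _ _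

theorem Q_lt {z y : ℝ} {p : ℕ} (hp : p ∈ Q z y) : z < (p : ℝ) := (Finset.mem_filter.mp hp).2

theorem theta_sub {z y : ℝ} (hz : 0 ≤ z) (hzy : z ≤ y) :
    Chebyshev.theta y - Chebyshev.theta z = ∑ p ∈ Q z y, Real.log p := by
  have h1 : (PR y).filter (fun p : ℕ => ¬ z < (p : ℝ)) = PR z := by
    ext p
    rw [Finset.mem_filter, mem_PR, mem_PR, not_lt, Nat.le_floor_iff (hz.trans hzy),
      Nat.le_floor_iff hz]
    constructor
    · rintro ⟨⟨h1, _⟩, h3⟩; exact ⟨h1, h3⟩
    · rintro ⟨h1, h2⟩; exact ⟨⟨h1, h2.trans hzy⟩, h2⟩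
  rw [theta_PR, theta_PR, ← h1, ← Finset.sum_filter_add_sum_filter_not (PR y) (fun p : ℕ => z < (p : ℝ))]
  unfold Q
  ring

theorem le_card_Q {z y : ℝ} (hz : 0 ≤ z) (hzy : z ≤ y) (hy : 1 ≤ y) :
    Chebyshev.theta y - Chebyshev.theta z ≤ ((Q z y).card : ℝ) * Real.log y := by
  rw [theta_sub hz hzy]
  calc ∑ p ∈ Q z y, Real.log p ≤ ∑ p ∈ Q z y, Real.log y := by
        apply Finset.sum_le_sum
        intro p hp
        have hp' := mem_PR.mp (Q_sub z y hp)
        apply Real.log_le_log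
        · exact_mod_cast hp'.1.pos
        · exact (Nat.cast_le.mpr hp'.2).trans (Nat.floor_le (by linarith))
    _ = _ := by rw [Finset.sum_const, nsmul_eq_mul]

theorem card_Q_le {z y : ℝ} (hz : 0 ≤ z) (hzy : z ≤ y) : ((Q z y).card : ℝ) ≤ y - z + 1 := by
  have h1 : Q z y ⊆ Finset.Ioc ⌊z⌋₊ ⌊y⌋₊ := by
    intro p hp
    rw [Finset.mem_Ioc]
    refine ⟨?_, (mem_PR.mp (Q_sub z y hp)).2⟩
    rw [Nat.floor_lt hz]
    exact Q_lt hp
  have h2 := Finset.card_le_card h1
  rw [Nat.card_Ioc] at h2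
  have h3 : ⌊z⌋₊ ≤ ⌊y⌋₊ := Nat.floor_le_floor hzy
  have h4 : ((Q z y).card : ℝ) ≤ ((⌊y⌋₊ - ⌊z⌋₊ : ℕ) : ℝ) := by exact_mod_cast h2
  rw [Nat.cast_sub h3] at h4
  have h5 : (⌊y⌋₊ : ℝ) ≤ y := Nat.floor_le (hz.trans hzy)
  have h6 : z < ⌊z⌋₊ + 1 := Nat.lt_floor_add_one z
  linarith

theorem fp_le {p : ℝ} (hp : 1 < p) : -Real.log (1 - 1 / p) ≤ 1 / (p - 1) := by
  have hp0 : 0 < p := by linarith
  have h1 : 0 < 1 - 1 / p := by
    have : 1 / p < 1 := by rw [div_lt_one hp0]; exact hp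
    linarith
  have h2 := Real.one_sub_inv_le_log_of_pos h1
  have h3 : (1 - 1 / p)⁻¹ = 1 + 1 / (p - 1) := by
    have : p - 1 ≠ 0 := by linarith
    have h4 : 1 - 1 / p = (p - 1) / p := by field_simp
    rw [h4, inv_div]
    field_simp
    ring
  rw [h3] at h2
  linarith

theorem ev_rpow (c s : ℝ) (hs : 0 < s) : ∀ᶠ y : ℝ in atTop, c ≤ y ^ s :=
  (tendsto_rpow_atTop hs).eventually_ge_atTop c

theorem ev_log (c s : ℝ) (hc : 0 < c) (hs : 0 < s) : ∀ᶠ y : ℝ in atTop, c * Real.log y ≤ y ^ s := by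
  have h := (isLittleO_log_rpow_atTop hs).bound (show (0 : ℝ) < c⁻¹ by positivity)
  filter_upwards [h, eventually_ge_atTop 1] with y hy hy1
  rw [Real.norm_of_nonneg (Real.log_nonneg hy1), Real.norm_of_nonneg (by positivity)] at hy
  calc c * Real.log y ≤ c * (c⁻¹ * y ^ s) := mul_le_mul_of_nonneg_left hy hc.le
    _ = y ^ s := by field_simp

theorem ev_theta (h : Tendsto (fun x : ℝ => Chebyshev.theta x / x) atTop (𝓝 1)) :
    ∀ᶠ y : ℝ in atTop, 3 / 5 * y ≤ Chebyshev.theta y ∧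
      y / 4 ≤ Chebyshev.theta y - Chebyshev.theta (y / 2) := by
  have h1 : ∀ᶠ y : ℝ in atTop, 9 / 10 < Chebyshev.theta y / y ∧ Chebyshev.theta y / y < 11 / 10 := by
    exact (h.eventually (lt_mem_nhds (by norm_num))).and (h.eventually (gt_mem_nhds (by norm_num)))
  have h2 : ∀ᶠ y : ℝ in atTop, 9 / 10 < Chebyshev.theta (y / 2) / (y / 2) ∧
      Chebyshev.theta (y / 2) / (y / 2) < 11 / 10 :=
    (tendsto_id.atTop_div_const (show (0 : ℝ) < 2 by norm_num)).eventually h1
  filter_upwards [h1, h2, eventually_gt_atTop 0] with y hy1 hy2 hy0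
  rw [lt_div_iff₀ hy0, div_lt_iff₀ hy0] at hy1
  rw [lt_div_iff₀ (by linarith), div_lt_iff₀ (by linarith)] at hy2
  constructor <;> linarith [hy1.1, hy1.2, hy2.1, hy2.2]

theorem ev_psi (h : Tendsto (fun x : ℝ => Chebyshev.psi x / x) atTop (𝓝 1)) :
    ∀ᶠ y : ℝ in atTop, Chebyshev.psi y ≤ 2 * y := by
  filter_upwards [h.eventually (gt_mem_nhds (show (1 : ℝ) < 2 by norm_num)),
    eventually_gt_atTop 0] with y hy1 hy0
  rw [div_lt_iff₀ hy0] at hy1
  linarith

theorem ev_sqrt (κ : ℝ) (h : κ < 1 / 2) : ∀ᶠ y : ℝ in atTop, 14 / Real.sqrt y ≤ y ^ (-κ) / 2 := by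
  filter_upwards [ev_rpow 28 (1 / 2 - κ) (by linarith), eventually_gt_atTop 0] with y hy hy0
  have hs0 : 0 < Real.sqrt y := Real.sqrt_pos.mpr hy0
  rw [div_le_div_iff₀ hs0 (by norm_num)]
  have h1 : y ^ (-κ) * Real.sqrt y = y ^ (1 / 2 - κ) := by
    rw [Real.sqrt_eq_rpow, ← Real.rpow_add hy0]
    congr 1; ring
  rw [h1]; linarith

theorem log2_ge : (1 : ℝ) / 2 ≤ Real.log 2 := by
  have := Real.log_two_gt_d9
  linarith

theorem long_aux (hth : Tendsto (fun x : ℝ => Chebyshev.theta x / x) atTop (𝓝 1))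
    (hps : Tendsto (fun x : ℝ => Chebyshev.psi x / x) atTop (𝓝 1)) : RobLong := by
  intro κ ε hκ hκ2 hε
  have hev : ∀ᶠ y : ℝ in atTop, y ^ (-κ) ≤ fN y →
      Real.exp (y ^ (1 - κ - ε)) ≤ ((NearR y).ncard : ℝ) := by
    filter_upwards [eventually_ge_atTop 4, ev_theta hth, ev_psi hps, ev_sqrt κ hκ2,
      ev_log (5 / 4) κ (by norm_num) hκ, ev_rpow 32 ε hε, ev_rpow 16 (1 - κ) (by linarith)]
      with y hy hT hP hsq hlog hε' h16 hf
    have hy0 : 0 < y := by linarith
    have hly : 0 < Real.log y := Real.log_pos (by linarith)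
    have hpow : y ^ (1 - κ) * y ^ κ = y := by
      rw [← Real.rpow_add hy0]; simp
    -- the number of elements
    set k := ⌊y ^ (1 - κ) / 8⌋₊ with hk
    have hk1 : (k : ℝ) ≤ y ^ (1 - κ) / 8 := Nat.floor_le (by positivity)
    have hk2 : y ^ (1 - κ) / 8 < k + 1 := Nat.lt_floor_add_one _
    have hklog : (k : ℝ) * Real.log y ≤ y / 10 := by
      calc (k : ℝ) * Real.log y ≤ (y ^ (1 - κ) / 8) * (4 / 5 * y ^ κ) :=
            mul_le_mul hk1 (by linarith) hly.le (by positivity)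
        _ = (y ^ (1 - κ) * y ^ κ) / 10 := by ring
        _ = y / 10 := by rw [hpow]
    have hkQ : k ≤ (Q (y / 2) y).card := by
      have h1 := le_card_Q (show 0 ≤ y / 2 by linarith) (show y / 2 ≤ y by linarith) (by linarith)
      have h2 : (k : ℝ) * Real.log y ≤ ((Q (y / 2) y).card : ℝ) * Real.log y := by
        linarith [hT.2]
      have h3 : (k : ℝ) ≤ ((Q (y / 2) y).card : ℝ) := le_of_mul_le_mul_right h2 hly
      exact_mod_cast h3
    obtain ⟨A0, hA0, hcard⟩ := Finset.exists_subset_card_eq hkQ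
    have hmain := count (E := 4 / y) hy (hA0.trans (Q_sub _ _)) (fun p hp => Q_lt (hA0 hp)) hT.1 hP
      (by rw [hcard]; exact hklog) (by positivity) ?_ ?_
    · refine le_trans ?_ hmain
      rw [Real.exp_le_exp, hcard]
      have h1 : y ^ (1 - κ - ε) * y ^ ε = y ^ (1 - κ) := by
        rw [← Real.rpow_add hy0]; congr 1; ring
      have h2 : 0 < y ^ (1 - κ - ε) := by positivity
      have h3 : 32 * y ^ (1 - κ - ε) ≤ y ^ (1 - κ) := by
        rw [← h1]; nlinarith
      have h4 := log2_ge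
      have h5 : (k : ℝ) * (1 / 2) ≤ (k : ℝ) * Real.log 2 :=
        mul_le_mul_of_nonneg_left h4 (Nat.cast_nonneg _)
      linarith
    · intro p hp
      have hp1 := Q_lt (hA0 hp)
      have hp2 : (1 : ℝ) < p := by linarith
      have h1 := fp_le hp2
      have h2 : 1 / ((p : ℝ) - 1) ≤ 4 / y := by
        rw [div_le_div_iff₀ (by linarith) hy0]
        linarith
      have h3 : 0 ≤ Real.log p / (Chebyshev.theta y * Real.log (Chebyshev.theta y)) := by
        apply div_nonneg (Real.log_nonneg hp2.le)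
        apply mul_nonneg (Chebyshev.theta_nonneg y)
        apply Real.log_nonneg
        linarith [hT.1]
      linarith
    · refine le_trans ?_ hf
      rw [hcard]
      have h1 : y ^ (1 - κ) = y * y ^ (-κ) := by
        rw [sub_eq_add_neg, Real.rpow_add hy0, Real.rpow_one]
      have h2 : (k : ℝ) * (4 / y) ≤ y ^ (-κ) / 2 := by
        calc (k : ℝ) * (4 / y) ≤ (y ^ (1 - κ) / 8) * (4 / y) :=
              mul_le_mul_of_nonneg_right hk1 (by positivity)
          _ = y ^ (-κ) / 2 := by rw [h1]; field_simp; norm_num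
      linarith
  exact eventually_atTop.mp hev

theorem short_aux (hth : Tendsto (fun x : ℝ => Chebyshev.theta x / x) atTop (𝓝 1))
    (hps : Tendsto (fun x : ℝ => Chebyshev.psi x / x) atTop (𝓝 1)) : RobShort := by
  intro θ₀ κ ε hθ₀ hκ hκ2 hθκ₀ hε hC₀
  obtain ⟨C₀, hC₀⟩ := hC₀
  -- normalise `θ ≥ 0`, `C ≥ 0`
  obtain ⟨θ, C, hθ0, hθ1, hθκ, hC0, hC⟩ : ∃ θ C : ℝ, 0 ≤ θ ∧ θ < 1 ∧ κ / 2 < 1 - θ ∧ 0 ≤ C ∧
      ∀ x : ℝ, 1 ≤ x → |Chebyshev.theta x - x| ≤ C * x ^ θ := by
    refine ⟨max θ₀ 0, |C₀|, le_max_right _ _, max_lt hθ₀ one_pos, ?_, abs_nonneg _, ?_⟩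
    · rcases le_total θ₀ 0 with h | h
      · rw [max_eq_right h]; linarith
      · rw [max_eq_left h]; exact hθκ₀
    · intro x hx
      refine (hC₀ x hx).trans ?_
      have h1 : x ^ θ₀ ≤ x ^ (max θ₀ 0) := Real.rpow_le_rpow_of_exponent_le hx (le_max_left _ _)
      have h2 : 0 ≤ x ^ θ₀ := by positivity
      calc C₀ * x ^ θ₀ ≤ |C₀| * x ^ θ₀ := mul_le_mul_of_nonneg_right (le_abs_self _) h2
        _ ≤ _ := mul_le_mul_of_nonneg_left h1 (abs_nonneg _)
  have hev : ∀ᶠ y : ℝ in atTop, y ^ (-κ) ≤ fN y →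
      Real.exp (y ^ (1 - κ / 2 - ε)) ≤ ((NearR y).ncard : ℝ) := by
    filter_upwards [eventually_ge_atTop 8, ev_theta hth, ev_psi hps, ev_sqrt κ hκ2,
      ev_log (5 / 2) (κ / 2) (by norm_num) (by linarith), ev_log 32 ε (by norm_num) hε,
      ev_rpow 64 (1 - κ / 2) (by linarith), ev_rpow (64 * C) (1 - θ - κ / 2) (by linarith)]
      with y hy hT hP hsq hlog hε' h64 hC64 hf
    have hy0 : 0 < y := by linarith
    have hly1 : 1 ≤ Real.log y := by
      rw [Real.le_log_iff_exp_le hy0]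
      have := Real.exp_one_lt_d9
      linarith
    have hly : 0 < Real.log y := by linarith
    set u := y ^ (-(κ / 2)) with hu
    have hu0 : 0 < u := by positivity
    have hu1 : u ≤ 1 := by
      rw [hu, Real.rpow_neg hy0.le]
      apply inv_le_one_of_one_le₀
      exact Real.one_le_rpow (by linarith) (by linarith)
    have huu : u * u = y ^ (-κ) := by
      rw [hu, ← Real.rpow_add hy0]; congr 1; ring
    have hpu : y ^ (1 - κ / 2) = y * u := by
      rw [sub_eq_add_neg, Real.rpow_add hy0, Real.rpow_one]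
    have hku : u * y ^ (κ / 2) = 1 := by
      rw [hu, ← Real.rpow_add hy0]; simp
    rw [hpu] at h64
    -- `a = C y^(θ-1)`
    set a := C * y ^ (θ - 1) with ha
    have ha0 : 0 ≤ a := by positivity
    have hau : 64 * a ≤ u := by
      have h1 : u * y ^ (κ / 2 + θ - 1) * y ^ (1 - θ - κ / 2) = u := by
        rw [mul_assoc, ← Real.rpow_add hy0]
        rw [show κ / 2 + θ - 1 + (1 - θ - κ / 2) = 0 by ring, Real.rpow_zero, mul_one]
      have h2 : u * y ^ (κ / 2 + θ - 1) = y ^ (θ - 1) := by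
        rw [hu, ← Real.rpow_add hy0]; congr 1; ring
      rw [h2] at h1
      calc 64 * a = y ^ (θ - 1) * (64 * C) := by rw [ha]; ring
        _ ≤ y ^ (θ - 1) * y ^ (1 - θ - κ / 2) := mul_le_mul_of_nonneg_left hC64 (by positivity)
        _ = u := h1
    have hCy : C * y ^ θ = a * y := by
      rw [ha, mul_assoc]
      congr 1
      nth_rewrite 3 [← Real.rpow_one y]
      rw [← Real.rpow_add hy0]; congr 1; ring
    -- `D`
    set D := y * u / 8 with hD
    have hD8 : 8 ≤ D := by rw [hD]; linarith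
    have hDy : D ≤ y / 8 := by rw [hD]; nlinarith
    have hyD0 : 0 ≤ y - D := by linarith
    have hyD1 : y - D ≤ y := by linarith
    have hθy := abs_le.mp (hC y (by linarith))
    rw [hCy] at hθy
    have hθyD : |Chebyshev.theta (y - D) - (y - D)| ≤ a * y := by
      refine (hC (y - D) (by linarith)).trans ?_
      rw [← hCy]
      apply mul_le_mul_of_nonneg_left _ hC0
      exact Real.rpow_le_rpow hyD0 hyD1 hθ0
    have hθyD' := abs_le.mp hθyD
    have hc1 := le_card_Q hyD0 hyD1 (by linarith)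
    have hc2 := card_Q_le hyD0 hyD1
    set A0 := Q (y - D) y with hA0
    have hc3 : (A0.card : ℝ) ≤ 2 * D := by linarith
    have hmain := count (E := u / y) (A0 := A0) (by linarith) (Q_sub _ _)
      (fun p hp => lt_trans (show y / 2 < y - D by linarith) (Q_lt hp)) hT.1 hP
      ?_ (by positivity) ?_ ?_
    · refine le_trans ?_ hmain
      rw [Real.exp_le_exp]
      -- `A0.card * log y ≥ D/2`
      have h1 : y * u / 16 ≤ (A0.card : ℝ) * Real.log y := by
        have h2 : 2 * (a * y) ≤ y * u / 32 := by nlinarith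
        have h3 : D - 2 * (a * y) ≤ (A0.card : ℝ) * Real.log y := by linarith
        have h4 : 0 ≤ y * u := by positivity
        rw [hD] at h3
        linarith
      have h2 : y ^ (1 - κ / 2 - ε) * y ^ ε = y * u := by
        rw [← hpu, ← Real.rpow_add hy0]; congr 1; ring
      have h3 : 0 < y ^ (1 - κ / 2 - ε) := by positivity
      have h4 : y ^ (1 - κ / 2 - ε) * (32 * Real.log y) ≤ y * u := by
        rw [← h2]; exact mul_le_mul_of_nonneg_left hε' h3.le
      have h5 : (y ^ (1 - κ / 2 - ε) * 2) * Real.log y ≤ (A0.card : ℝ) * Real.log y := by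
        linarith
      have h6 : y ^ (1 - κ / 2 - ε) * 2 ≤ (A0.card : ℝ) := le_of_mul_le_mul_right h5 hly
      have h7 := log2_ge
      have h8 : (A0.card : ℝ) * (1 / 2) ≤ (A0.card : ℝ) * Real.log 2 :=
        mul_le_mul_of_nonneg_left h7 (Nat.cast_nonneg _)
      linarith
    · -- `card * log y ≤ y / 10`
      calc (A0.card : ℝ) * Real.log y ≤ (2 * D) * (2 / 5 * y ^ (κ / 2)) :=
            mul_le_mul hc3 (by linarith) hly.le (by linarith)
        _ = y / 10 * (u * y ^ (κ / 2)) := by rw [hD]; ring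
        _ = y / 10 := by rw [hku, mul_one]
    · -- each term
      intro p hp
      have hp1 : y - D < p := Q_lt hp
      have hp2 : (1 : ℝ) < p := by linarith
      have h1 := fp_le hp2
      set d := u / 8 with hd
      have hDd : D = y * d := by rw [hD, hd]; ring
      have hd0 : 0 < d := by positivity
      have hd1 : d ≤ 1 / 8 := by rw [hd]; linarith
      have hy8 : 1 / y ≤ 1 / 8 := one_div_le_one_div_of_le (by norm_num) hy
      have h2 : 1 / ((p : ℝ) - 1) ≤ 1 / y * (1 + 2 * d + 2 / y) := by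
        have e1 : 1 / ((p : ℝ) - 1) ≤ 1 / (y - D - 1) :=
          one_div_le_one_div_of_le (by linarith) (by linarith)
        have e2 : y - D - 1 = y * (1 - (d + 1 / y)) := by rw [hDd]; field_simp; ring
        have e3 : 0 < 1 - (d + 1 / y) := by linarith
        have e4 : 1 / (1 - (d + 1 / y)) ≤ 1 + 2 * (d + 1 / y) := by
          rw [div_le_iff₀ e3]
          have : 0 < 1 / y := by positivity
          nlinarith
        calc 1 / ((p : ℝ) - 1) ≤ 1 / (y - D - 1) := e1
          _ = 1 / y * (1 / (1 - (d + 1 / y))) := by rw [e2]; field_simp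
          _ ≤ 1 / y * (1 + 2 * (d + 1 / y)) := mul_le_mul_of_nonneg_left e4 (by positivity)
          _ = _ := by ring
      have h3 : 1 / y * (1 - 2 * a - 2 * d)
          ≤ Real.log p / (Chebyshev.theta y * Real.log (Chebyshev.theta y)) := by
        have hTpos : 1 < Chebyshev.theta y := by linarith [hT.1]
        have e1 : Chebyshev.theta y ≤ y * (1 + a) := by linarith
        have e2 : Real.log (Chebyshev.theta y) ≤ Real.log y + a := by
          calc Real.log (Chebyshev.theta y) ≤ Real.log (y * (1 + a)) :=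
                Real.log_le_log (by linarith) e1
            _ = Real.log y + Real.log (1 + a) := Real.log_mul hy0.ne' (by linarith)
            _ ≤ _ := by
                have := Real.log_le_sub_one_of_pos (show 0 < 1 + a by linarith)
                linarith
        have e3 : Real.log y - 2 * d ≤ Real.log p := by
          have e4 : y * (1 - d) ≤ p := by rw [hDd] at hp1; linarith
          have e5 := log_one_sub_ge hd0.le (by linarith)
          calc Real.log y - 2 * d ≤ Real.log y + Real.log (1 - d) := by linarith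
            _ = Real.log (y * (1 - d)) := (Real.log_mul hy0.ne' (by linarith)).symm
            _ ≤ Real.log p := Real.log_le_log (mul_pos hy0 (by linarith)) e4
        have hlT : 0 < Real.log (Chebyshev.theta y) := Real.log_pos hTpos
        rw [le_div_iff₀ (by positivity)]
        have ha1 : a ≤ 1 / 64 := by linarith
        have e6 : 0 ≤ 1 / y * (1 - 2 * a - 2 * d) := by
          apply mul_nonneg (by positivity); linarith
        calc 1 / y * (1 - 2 * a - 2 * d) * (Chebyshev.theta y * Real.log (Chebyshev.theta y))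
            ≤ 1 / y * (1 - 2 * a - 2 * d) * ((y * (1 + a)) * (Real.log y + a)) := by
              apply mul_le_mul_of_nonneg_left _ e6
              exact mul_le_mul e1 e2 hlT.le (by positivity)
          _ = (1 - 2 * a - 2 * d) * (1 + a) * (Real.log y + a) := by field_simp
          _ ≤ (1 - a - 2 * d) * (Real.log y + a) := by
              apply mul_le_mul_of_nonneg_right _ (by linarith)
              nlinarith
          _ ≤ Real.log y - 2 * d := by nlinarith
          _ ≤ Real.log p := e3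
      have h4 : 1 / y * (1 + 2 * d + 2 / y) - 1 / y * (1 - 2 * a - 2 * d) ≤ u / y := by
        have e1 : 1 / y * (1 + 2 * d + 2 / y) - 1 / y * (1 - 2 * a - 2 * d)
            = (4 * d + 2 / y + 2 * a) / y := by ring
        rw [e1]
        apply div_le_div_of_nonneg_right _ hy0.le
        have e2 : 2 / y ≤ u / 32 := by
          rw [div_le_div_iff₀ hy0 (by norm_num)]
          linarith
        rw [hd]
        linarith
      linarith
    · refine le_trans ?_ hf
      have h1 : (A0.card : ℝ) * (u / y) ≤ y ^ (-κ) / 2 := by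
        calc (A0.card : ℝ) * (u / y) ≤ (2 * D) * (u / y) :=
              mul_le_mul_of_nonneg_right hc3 (by positivity)
          _ = (u * u) / 4 := by rw [hD]; field_simp; norm_num
          _ ≤ (u * u) / 2 := by nlinarith
          _ = y ^ (-κ) / 2 := by rw [huu]
      linarith
  exact eventually_atTop.mp hev

theorem robLong : RobLong :=
  long_aux Pool.Agent.Helper923.PNT.theta_div_tendsto Pool.Agent.Helper923.PNT.psi_div_tendsto

theorem robShort : RobShort :=
  short_aux Pool.Agent.Helper923.PNT.theta_div_tendsto Pool.Agent.Helper923.PNT.psi_div_tendsto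

end

end Pool.Agent.H862R2.Rob
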